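import Mathlib

set_option autoImplicit false
set_option linter.unusedSectionVars false

open Finset

namespace Pool.Agent.H.MP_284d10_pr

variable {V : Type} [Fintype V] [DecidableEq V]

/-- lists of length at most `R` -/
def Lle : ℕ → Finset (List V)
  | 0 => {[]}
  | R + 1 => insert [] ((univ ×ˢ Lle R).image fun x => x.1 :: x.2)

theorem mem_Lle {R : ℕ} {l : List V} : l ∈ Lle R ↔ l.length ≤ R := by
  induction R generalizing l with
  | zero => simp [Lle]
  | succ R ih => cases l <;> simp [Lle, ih]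

theorem sum_Lle (R : ℕ) (F : List V → ℝ) :
    ∑ l ∈ Lle (R + 1), F l = F [] + ∑ a, ∑ l ∈ Lle R, F (a :: l) := by
  rw [Lle, sum_insert (by simp), sum_image fun x _ y _ h => by simpa [Prod.ext_iff] using h,
    sum_product]

def wt (w : V → V → ℝ) (v : V) : V → List V → ℝ
  | u, [] => w u v
  | u, a :: l => w u a * wt w v a l

theorem wt_nonneg {w : V → V → ℝ} (h : ∀ a b, 0 ≤ w a b) (v : V) : ∀ u l, 0 ≤ wt w v u l
  | _, [] => h _ _
  | _, a :: l => mul_nonneg (h _ _) (wt_nonneg h v a l)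

theorem wt_congr {w w' : V → V → ℝ} (v : V) :
    ∀ u l, (∀ a ∈ u :: l, ∀ b ∈ v :: l, w a b = w' a b) → wt w v u l = wt w' v u l
  | u, [], h => h _ (by simp) _ (by simp)
  | u, a :: l, h => by
    rw [wt, wt, h u (by simp) a (by simp), wt_congr v a l fun c hc b hb => h c (by simp [hc]) b (by
      simp only [List.mem_cons] at hb ⊢; tauto)]

noncomputable def k (w : V → V → ℝ) (R : ℕ) (u v : V) : ℝ := ∑ l ∈ Lle R, wt w v u l

theorem k_zero (w : V → V → ℝ) (u v : V) : k w 0 u v = w u v := by simp [k, Lle, wt]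

theorem k_succ (w : V → V → ℝ) (R : ℕ) (u v : V) :
    k w (R + 1) u v = w u v + ∑ a, w u a * k w R a v := by
  simp only [k, sum_Lle, wt, mul_sum]

theorem k_nonneg {w : V → V → ℝ} (h : ∀ a b, 0 ≤ w a b) (R : ℕ) (u v : V) : 0 ≤ k w R u v :=
  sum_nonneg fun _ _ => wt_nonneg h _ _ _

section
variable {p M Q : ℝ} {ρ : V → V → ℝ} (hp : 0 ≤ p) (hV : Fintype.card V * p ≤ 1)
  (h0 : ∀ a b, 0 ≤ ρ a b) (h1 : ∀ a, ∑ b, ρ a b ≤ 1) (hM : ∑ a, ∑ b, ρ a b ≤ M) (hM1 : 1 ≤ M)
  (hQ : p * M * Q ^ 2 ≤ 1 / 8)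
include hp hV h0 hM

theorem step {g : V → ℝ} {H : ℝ} (hH : 0 ≤ H) (g0 : ∀ a, 0 ≤ g a) (g1 : ∀ a, g a ≤ H) :
    (∀ u, ∑ a, (p + ρ u a) * g a ≤ p * ∑ a, g a + (∑ a, ρ u a) * H) ∧
    ∑ u, ∑ a, (p + ρ u a) * g a ≤ ∑ a, g a + M * H := by
  have a1 : ∀ u, ∑ a, (p + ρ u a) * g a ≤ p * ∑ a, g a + (∑ a, ρ u a) * H := fun u => by
    simp only [add_mul, sum_add_distrib, mul_sum, sum_mul]
    gcongr with a
    exacts [h0 _ _, g1 _]
  refine ⟨a1, (sum_le_sum fun u _ => a1 u).trans ?_⟩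
  rw [sum_add_distrib, ← sum_mul _ _ H, sum_const, card_univ, nsmul_eq_mul, ← mul_assoc]
  have := sum_nonneg (s := univ) fun a _ => g0 a
  nlinarith

include h1 hM1 hQ

theorem rec1 (E : ℕ → V → ℝ) {c : ℝ} (hc : 0 ≤ c) (e : ∀ R u, 0 ≤ E R u) (e0 : ∀ u, E 0 u ≤ c)
    (es : ∀ R u, E (R + 1) u ≤ c + ∑ a, (p + ρ u a) * E R a) (R : ℕ) (hR : (R : ℝ) + 1 ≤ Q) :
    (∀ u, E R u ≤ 4 * Q * (R + 1) * c) ∧ p * ∑ u, E R u ≤ 2 * (R + 1) * c := by
  have hc' : p * ∑ _u : V, c ≤ c := by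
    rw [sum_const, card_univ, nsmul_eq_mul]; nlinarith
  induction R with
  | zero =>
    simp only [Nat.cast_zero, zero_add] at hR ⊢
    exact ⟨fun u => by nlinarith [e0 u], by
      nlinarith [mul_le_mul_of_nonneg_left (sum_le_sum (s := univ) fun u _ => e0 u) hp]⟩
  | succ R ih =>
    push_cast at hR ⊢
    have r0 : (0 : ℝ) ≤ R := R.cast_nonneg
    obtain ⟨i1, i2⟩ := ih (by linarith)
    have hH : 0 ≤ 4 * Q * (R + 1) * c := by have : 0 ≤ Q := by linarith
                                            positivity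
    obtain ⟨s1, s2⟩ := step hp hV h0 hM hH (e R) i1
    refine ⟨fun u => ?_, ?_⟩
    · nlinarith [es R u, s1 u, mul_le_mul_of_nonneg_right (h1 u) hH,
        mul_le_mul_of_nonneg_right hR hc]
    · have a1 := mul_le_mul_of_nonneg_left (sum_le_sum (s := univ) fun u _ => es R u) hp
      rw [sum_add_distrib] at a1
      have a2 : p * M * (Q * (R + 1)) ≤ p * M * Q ^ 2 := by
        have : 0 ≤ M := by linarith
        gcongr; nlinarith
      nlinarith [mul_le_mul_of_nonneg_left s2 hp, mul_le_mul_of_nonneg_right (a2.trans hQ) hc]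

theorem rec2 {v : V} (hv : ∀ a, ρ v a = 0) (hQ0 : 1 ≤ Q) (G : ℕ → V → ℝ) (e : ∀ R u, 0 ≤ G R u)
    (e0 : ∀ u, G 0 u ≤ if u = v then 1 else 0)
    (es : ∀ R u, G (R + 1) u ≤ (if u = v then 1 else 0) + ∑ a, (p + ρ u a) * G R a) (R : ℕ)
    (hR : (R : ℝ) ≤ Q) : (∀ u, G R u ≤ 1 + R / Q) ∧ ∑ u, G R u ≤ 3 * M * (R + 1) := by
  induction R with
  | zero =>
    refine ⟨fun u => (e0 u).trans (by split_ifs <;> simp), (sum_le_sum fun u _ => e0 u).trans ?_⟩
    simp; linarith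
  | succ R ih =>
    push_cast at hR ⊢
    have r0 : (0 : ℝ) ≤ R := R.cast_nonneg
    obtain ⟨i1, i2⟩ := ih (by linarith)
    have q0 : 0 < Q := by linarith
    have q1 : R / Q ≤ 1 := by rw [div_le_one q0]; linarith
    have q2 : 0 ≤ R / Q := by positivity
    obtain ⟨s1, s2⟩ := step hp hV h0 hM (by positivity) (e R) i1
    have a1 : p * ∑ a, G R a ≤ 1 / Q := by
      rw [le_div_iff₀ q0]
      have a2 : p * M * (Q * (R + 1)) ≤ p * M * Q ^ 2 := by
        have : 0 ≤ M := by linarith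
        gcongr; nlinarith
      nlinarith [mul_le_mul_of_nonneg_left i2 (mul_nonneg hp q0.le)]
    refine ⟨fun u => ?_, ?_⟩
    · have a2 := es R u
      have a3 := s1 u
      rw [add_div]
      split_ifs at a2 with h
      · simp only [h, hv, sum_const_zero, zero_mul] at a2 a3 ⊢; linarith
      · nlinarith [mul_le_mul_of_nonneg_right (h1 u) (show 0 ≤ 1 + R / Q by positivity)]
    · have a2 := sum_le_sum (s := univ) fun u _ => es R u
      rw [sum_add_distrib, sum_ite_eq', if_pos (mem_univ _)] at a2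
      nlinarith

variable {R : ℕ} (hR : (R : ℝ) + 1 ≤ Q)
include hR

theorem k_row : (∀ u, ∑ v, k (fun a b => p + ρ a b) R u v ≤ 8 * Q ^ 2) ∧
    p * ∑ u, ∑ v, k (fun a b => p + ρ a b) R u v ≤ 4 * Q := by
  have a : ∀ u, ∑ v, (p + ρ u v) ≤ 2 := fun u => by
    rw [sum_add_distrib, sum_const, card_univ, nsmul_eq_mul]; linarith [h1 u]
  obtain ⟨a1, a2⟩ := rec1 hp hV h0 h1 hM hM1 hQ (fun R u => ∑ v, k (fun a b => p + ρ a b) R u v)
    (c := 2) (by norm_num) (fun R u => sum_nonneg fun _ _ => k_nonneg (fun a b => add_nonneg hp (h0 a b)) _ _ _)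
    (fun u => by simpa only [k_zero] using a u) (fun R u => by
      simp only [k_succ, sum_add_distrib, mul_sum]
      rw [sum_comm, ← sum_add_distrib]; linarith [a u]) R hR
  have r0 : (0 : ℝ) ≤ R := R.cast_nonneg
  exact ⟨fun u => by nlinarith [a1 u], by linarith⟩

theorem k_col {v : V} (hv : ∀ a, ρ a v = 0) : (∀ u, k (fun a b => p + ρ a b) R u v ≤ 4 * Q ^ 2 * p) ∧
    p * ∑ u, k (fun a b => p + ρ a b) R u v ≤ 2 * Q * p := by
  obtain ⟨a1, a2⟩ := rec1 hp hV h0 h1 hM hM1 hQ (fun R u => k (fun a b => p + ρ a b) R u v)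
    (c := p) hp (fun R u => k_nonneg (fun a b => add_nonneg hp (h0 a b)) _ _ _)
    (fun u => by simp [k_zero, hv]) (fun R u => by simp [k_succ, hv]) R hR
  have r0 : (0 : ℝ) ≤ R := R.cast_nonneg
  have q0 : 0 ≤ Q := by linarith
  exact ⟨fun u => by nlinarith [a1 u, mul_le_mul_of_nonneg_right hR (mul_nonneg hp q0)],
    by nlinarith⟩

theorem k_term {v : V} (hv : ∀ a, ρ v a = 0) : (∀ u, k (fun a b => p + ρ a b) R u v ≤ 2) ∧
    ∑ u, k (fun a b => p + ρ a b) R u v ≤ 6 * M * Q := by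
  have r0 : (0 : ℝ) ≤ R := R.cast_nonneg
  have w0 : ∀ a b, 0 ≤ p + ρ a b := fun a b => add_nonneg hp (h0 a b)
  obtain ⟨a1, a2⟩ := rec2 hp hV h0 h1 hM hM1 hQ hv (by linarith) (fun R u => (if u = v then 1 else 0) +
    Nat.casesOn R 0 fun R => k (fun a b => p + ρ a b) R u v)
    (fun R u => add_nonneg (by positivity) (by cases R; exacts [le_rfl, k_nonneg w0 _ _ _])) (by simp)
    (fun R u => by cases R <;> simp [k_zero, k_succ, mul_add, sum_add_distrib]) (R + 1)
    (by push_cast; linarith)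
  push_cast at a1 a2
  have : (R + 1) / Q ≤ 1 := by rw [div_le_one (by linarith)]; linarith
  refine ⟨fun u => ?_, ?_⟩
  · have := a1 u
    split_ifs at this <;> linarith
  · rw [sum_add_distrib, sum_ite_eq', if_pos (mem_univ _)] at a2
    nlinarith

end

open Classical in
noncomputable def W (p : ℝ) (a : V → V → Prop) (u v : V) : ℝ := p + if a u v then 1 else 0

open Classical in
noncomputable def Nb (a : V → V → Prop) (u : V) : Finset V :=
  if (univ.filter (a u)).Nonempty then univ.filter (a u) else {u}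

open Classical in
noncomputable def rho (a : V → V → Prop) (f : V → V) (Z : Finset V) (u v : V) : ℝ :=
  if a u v ∧ f u = v ∧ u ∉ Z then 1 else 0

theorem sel (p : ℝ) (a : V → V → Prop) (Z : Finset V) (v : V) (l : List V) : ∀ u, (u :: l).Nodup →
    (∀ z ∈ u :: l, z ∉ Z) → ∃ f ∈ Fintype.piFinset (Nb a),
      wt (W p a) v u l = wt (fun b c => p + rho a f Z b c) v u l := by
  classical
  have h0 : ∀ f ∈ Fintype.piFinset (Nb a), ∀ u c, u ∉ Z → ∃ d, Function.update f u d ∈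
      Fintype.piFinset (Nb a) ∧ W p a u c = p + rho a (Function.update f u d) Z u c := fun f hf u c hu => by
    by_cases h : a u c
    · refine ⟨c, Fintype.mem_piFinset.2 fun z => ?_, by simp [W, rho, h, hu]⟩
      rcases eq_or_ne z u with rfl | k
      · rw [Function.update_self, Nb, if_pos ⟨c, by simpa⟩]; simpa
      · rw [Function.update_of_ne k]; exact Fintype.mem_piFinset.1 hf z
    · exact ⟨f u, by simpa using hf, by simp [W, rho, h]⟩
  induction l with
  | nil =>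
    intro u _ hu
    obtain ⟨f, hf⟩ : (Fintype.piFinset (Nb a)).Nonempty := Fintype.piFinset_nonempty.2 fun z => by
      rw [Nb]; split_ifs with h; exacts [h, singleton_nonempty _]
    obtain ⟨d, h1, h2⟩ := h0 f hf u v (hu u (by simp))
    exact ⟨_, h1, h2⟩
  | cons b l ih =>
    intro u h hu
    obtain ⟨f, hf, h1⟩ := ih b h.of_cons fun z hz => hu z (by simp [hz])
    obtain ⟨d, h2, h3⟩ := h0 f hf u b (hu u (by simp))
    refine ⟨_, h2, ?_⟩
    rw [wt, wt, h1, h3]
    congr 1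
    refine wt_congr _ _ _ fun c hc e _ => ?_
    have : c ≠ u := fun k => (List.nodup_cons.1 h).1 (k ▸ hc)
    simp [rho, this]

/-- total weight of self-avoiding walks -/
noncomputable def K (p : ℝ) (a : V → V → Prop) (R : ℕ) (u v : V) : ℝ :=
  ∑ l ∈ Lle R, if (u :: l).Nodup ∧ v ∉ u :: l then wt (W p a) v u l else 0

theorem rho_nonneg (a : V → V → Prop) (f : V → V) (Z : Finset V) (u v : V) : 0 ≤ rho a f Z u v := by
  unfold rho; positivity

theorem W_nonneg {p : ℝ} (hp : 0 ≤ p) (a : V → V → Prop) (u v : V) : 0 ≤ W p a u v := by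
  unfold W; positivity

theorem K_nonneg {p : ℝ} (hp : 0 ≤ p) (a : V → V → Prop) (R : ℕ) (u v : V) : 0 ≤ K p a R u v :=
  sum_nonneg fun _ _ => by split_ifs; exacts [wt_nonneg (W_nonneg hp a) _ _ _, le_rfl]

theorem K_le {p : ℝ} (hp : 0 ≤ p) (a : V → V → Prop) (R : ℕ) (u v : V) {Z : Finset V} (hZ : Z ⊆ {v}) :
    K p a R u v ≤ ∑ f ∈ Fintype.piFinset (Nb a), k (fun b c => p + rho a f Z b c) R u v := by
  simp only [k]
  rw [sum_comm]
  have w0 : ∀ f l, 0 ≤ wt (fun b c => p + rho a f Z b c) v u l := fun f l =>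
    wt_nonneg (fun b c => add_nonneg hp (rho_nonneg _ _ _ _ _)) _ _ _
  refine sum_le_sum fun l _ => ?_
  split_ifs with h
  · obtain ⟨f, hf, e⟩ := sel p a Z v l u h.1 fun z hz k => h.2 (mem_singleton.1 (hZ k) ▸ hz)
    exact e ▸ single_le_sum (f := fun f => wt (fun b c => p + rho a f Z b c) v u l)
      (fun f _ => w0 f l) hf
  · exact sum_nonneg fun f _ => w0 f l

theorem rho_row (a : V → V → Prop) (f : V → V) (Z : Finset V) (u : V) : ∑ v, rho a f Z u v ≤ 1 :=
  (sum_le_sum (g := fun v => if f u = v then (1 : ℝ) else 0) fun v _ => by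
    unfold rho; split_ifs <;> simp_all).trans (by simp)

theorem rho_all {a : V → V → Prop} {D : Finset V} (hD : ∀ u v, a u v → u ∈ D) (f : V → V)
    (Z : Finset V) : ∑ u, ∑ v, rho a f Z u v ≤ D.card :=
  (sum_le_sum (g := fun u => if u ∈ D then (1 : ℝ) else 0) fun u _ => by
    split_ifs with h
    · exact rho_row _ _ _ _
    · exact (sum_eq_zero fun v _ => if_neg fun k => h (hD _ _ k.1)).le).trans (by simp)

theorem K_bd {p M Q : ℝ} {a : V → V → Prop} {D : Finset V} (hp : 0 ≤ p) (hV : Fintype.card V * p ≤ 1)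
    (hD : ∀ u v, a u v → u ∈ D) (hM : D.card ≤ M) (hM1 : 1 ≤ M) (hQ : p * M * Q ^ 2 ≤ 1 / 8)
    (hN : (Fintype.piFinset (Nb a)).card ≤ 4) {R : ℕ} (hR : (R : ℝ) + 1 ≤ Q) :
    (∀ u v, K p a R u v ≤ 8) ∧ (∀ v, ∑ u, K p a R u v ≤ 24 * M * Q) ∧
    (∀ u, ∑ v, K p a R u v ≤ 32 * Q ^ 2) ∧ p * ∑ u, ∑ v, K p a R u v ≤ 16 * Q ∧
    ∀ v, (∀ u, ¬ a u v) → (∀ u, K p a R u v ≤ 16 * Q ^ 2 * p) ∧ p * ∑ u, K p a R u v ≤ 8 * Q * p := by
  have q0 : 0 ≤ Q := le_trans (by positivity) hR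
  have m0 : 0 ≤ M := by linarith
  have h4 : ∀ (F : (V → V) → ℝ) (c : ℝ), 0 ≤ c → (∀ f, F f ≤ c) →
      ∑ f ∈ Fintype.piFinset (Nb a), F f ≤ 4 * c := fun F c hc h =>
    (sum_le_card_nsmul _ _ _ fun f _ => h f).trans (by
      rw [nsmul_eq_mul]; gcongr; exact_mod_cast hN)
  have t := fun f v => k_term hp hV (rho_nonneg a f {v}) (rho_row a f {v})
    ((rho_all hD f {v}).trans hM) hM1 hQ hR (v := v) (fun _ => by simp [rho])
  have r := fun f => k_row hp hV (rho_nonneg a f ∅) (rho_row a f ∅) ((rho_all hD f ∅).trans hM) hM1 hQ hR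
  have c := fun f v (h : ∀ u, ¬ a u v) => k_col hp hV (rho_nonneg a f ∅) (rho_row a f ∅)
    ((rho_all hD f ∅).trans hM) hM1 hQ hR (v := v) (fun _ => by simp [rho, h])
  refine ⟨fun u v => (K_le hp a R u v subset_rfl).trans ((h4 _ 2 (by norm_num) fun f =>
    (t f v).1 u).trans (by norm_num)), fun v => ?_, fun u => ?_, ?_, fun v h => ⟨fun u => ?_, ?_⟩⟩
  · refine (sum_le_sum fun u _ => K_le hp a R u v subset_rfl).trans ?_
    rw [sum_comm]
    exact (h4 _ _ (by positivity) fun f => (t f v).2).trans_eq (by ring)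
  · refine (sum_le_sum fun v _ => K_le hp a R u v (empty_subset _)).trans ?_
    rw [sum_comm]
    exact (h4 _ _ (by positivity) fun f => (r f).1 u).trans_eq (by ring)
  · refine (mul_le_mul_of_nonneg_left (sum_le_sum fun u _ => (sum_le_sum fun v _ =>
      K_le hp a R u v (empty_subset _)).trans_eq sum_comm) hp).trans ?_
    rw [sum_comm, mul_sum]
    exact (h4 _ _ (by positivity) fun f => (r f).2).trans_eq (by ring)
  · exact (K_le hp a R u v (empty_subset _)).trans ((h4 _ _ (by positivity) fun f =>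
      (c f v h).1 u).trans_eq (by ring))
  · refine (mul_le_mul_of_nonneg_left (sum_le_sum fun u _ =>
      K_le hp a R u v (empty_subset _)) hp).trans ?_
    rw [sum_comm, mul_sum]
    exact (h4 _ _ (by positivity) fun f => (c f v h).2).trans_eq (by ring)

end Pool.Agent.H.MP_284d10_pr
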