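import Pool.Agent.H.MP_284d10_pr.A

set_option autoImplicit false
set_option linter.unusedSectionVars false

open Finset

namespace Pool.Agent.H.MP_284d10_pr

variable {ι : Type} [Fintype ι] [DecidableEq ι]

def neg (z : ι × Bool) : ι × Bool := (z.1, !z.2)

@[simp] theorem neg_neg' (z : ι × Bool) : neg (neg z) = z := by simp [neg]
@[simp] theorem neg_fst (z : ι × Bool) : (neg z).1 = z.1 := rfl
@[simp] theorem neg_ne (z : ι × Bool) : neg z ≠ z := by simp [neg, Prod.ext_iff]
@[simp] theorem ne_neg (z : ι × Bool) : z ≠ neg z := (neg_ne z).symm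
@[simp] theorem neg_inj' {z w : ι × Bool} : neg z = neg w ↔ z = w := by simp [neg, Prod.ext_iff]

def edge (u v : ι × Bool) : Finset (ι × Bool) := {neg u, v}

@[simp] theorem mem_edge {u v z : ι × Bool} : z ∈ edge u v ↔ z = neg u ∨ z = v := by simp [edge]

def ed (v : ι × Bool) : ι × Bool → List (ι × Bool) → List (Finset (ι × Bool))
  | u, [] => [edge u v]
  | u, a :: l => edge u a :: ed v a l

theorem length_ed (v : ι × Bool) : ∀ u l, (ed v u l).length = l.length + 1
  | _, [] => rfl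
  | _, a :: l => by simp [ed, length_ed v a l]

theorem mem_ed {v : ι × Bool} {c : Finset (ι × Bool)} :
    ∀ {u l}, c ∈ ed v u l → ∃ a ∈ u :: l, ∃ b ∈ v :: l, c = edge a b
  | u, [], h => ⟨u, by simp, v, by simp, by simpa [ed] using h⟩
  | u, a :: l, h => by
    rcases List.mem_cons.1 h with h | h
    · exact ⟨u, by simp, a, by simp, h⟩
    · obtain ⟨x, hx, y, hy, e⟩ := mem_ed h
      exact ⟨x, by simp [hx], y, by simp only [List.mem_cons] at hy ⊢; tauto, e⟩

noncomputable def pr (p : ℝ) (A : Finset (Finset (ι × Bool))) (L : List (Finset (ι × Bool))) : ℝ :=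
  (L.map fun c => if c ∈ A then 1 else p).prod

theorem pr_nonneg {p : ℝ} (hp : 0 ≤ p) (A : Finset (Finset (ι × Bool))) (L : List (Finset (ι × Bool))) :
    0 ≤ pr p A L := List.prod_nonneg fun x hx => by
  obtain ⟨c, -, rfl⟩ := List.mem_map.1 hx
  positivity

theorem pr_le {p : ℝ} (hp : 0 ≤ p) {A : Finset (Finset (ι × Bool))} {a : ι × Bool → ι × Bool → Prop}
    {v : ι × Bool} : ∀ u l, (∀ b ∈ u :: l, ∀ c ∈ v :: l, edge b c ∈ A → a b c) →
      pr p A (ed v u l) ≤ wt (W p a) v u l := by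
  have h0 : ∀ b c, (edge b c ∈ A → a b c) → (if edge b c ∈ A then 1 else p) ≤ W p a b c := fun b c h => by
    unfold W; split_ifs <;> simp_all
  intro u l h
  induction l generalizing u with
  | nil => simpa [pr, ed, wt] using h0 u v (h u (by simp) v (by simp))
  | cons b l ih =>
    exact mul_le_mul (h0 u b (h u (by simp) b (by simp))) (ih b fun c hc d hd => h c (by simp [hc]) d
      (by simp only [List.mem_cons] at hd ⊢; tauto)) (pr_nonneg hp _ _) (W_nonneg hp _ _ _)

/-- weight of loops -/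
noncomputable def Phi (p : ℝ) (A : Finset (Finset (ι × Bool))) (R : ℕ) (u : ι × Bool) : ℝ :=
  ∑ l ∈ Lle R, if l ≠ [] ∧ ((u :: l).map Prod.fst).Nodup then pr p A (ed (neg u) u l) else 0

section
variable {p M : ℝ} {A : Finset (Finset (ι × Bool))} {D S : Finset (ι × Bool)} {R : ℕ} (hp : 0 ≤ p)
  (hV : Fintype.card (ι × Bool) * p ≤ 1) (hA : ∀ u, edge u (neg u) ∉ A)
  (hO : ∀ z, (A.filter (z ∈ ·)).card ≤ if z ∈ S then 2 else if z ∈ D then 1 else 0) (hS : S ⊆ D)
  (hS2 : S.card ≤ 2) (hM : D.card ≤ M) (hQ : p * M ^ 3 ≤ 1 / 8) (hR : (R : ℝ) + 1 ≤ M)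
include hA hO hS2

theorem card_Nb {a : ι × Bool → ι × Bool → Prop} (ha : ∀ u v, a u v → edge u v ∈ A) :
    (Fintype.piFinset (Nb a)).card ≤ 4 := by
  classical
  rw [Fintype.card_piFinset]
  refine (prod_le_prod' (g := fun u => if u ∈ S.image neg then 2 else 1) fun u _ => ?_).trans ?_
  · have h1 : (univ.filter (a u)).card ≤ (A.filter (neg u ∈ ·)).card :=
      card_le_card_of_injOn (edge u) (fun v hv => by simpa using ha u v (by simpa using hv))
        fun v hv w _ e => by
          have : v ∈ edge u w := e ▸ by simp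
          rcases mem_edge.1 this with k | k
          · exact (hA u (k ▸ ha u v (by simpa using hv))).elim
          · exact k
    have h2 := hO (neg u)
    have h3 : u ∈ S.image neg ↔ neg u ∈ S := by
      simp only [mem_image]
      exact ⟨fun ⟨z, h, e⟩ => by simpa [← e] using h, fun h => ⟨_, h, by simp⟩⟩
    simp only [Nb, h3]
    split_ifs at h2 ⊢ <;> first | omega | simp
  · rw [prod_ite_mem, univ_inter, prod_const]
    exact (Nat.pow_le_pow_right (by norm_num) (card_image_le.trans hS2)).trans (by norm_num)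

include hp hV hS hM hQ hR

theorem K_bd' {a : ι × Bool → ι × Bool → Prop} (ha : ∀ u v, a u v → edge u v ∈ A) {R' : ℕ} (h : R' ≤ R) :
    (∀ u v, K p a R' u v ≤ 8) ∧ (∀ v, ∑ u, K p a R' u v ≤ 24 * M * M) ∧
    (∀ u, ∑ v, K p a R' u v ≤ 32 * M ^ 2) ∧ p * ∑ u, ∑ v, K p a R' u v ≤ 16 * M ∧
    ∀ v, (∀ u, ¬ a u v) → (∀ u, K p a R' u v ≤ 16 * M ^ 2 * p) ∧ p * ∑ u, K p a R' u v ≤ 8 * M * p := by
  refine K_bd (D := D.image neg) hp hV (fun u v h => mem_image.2 ⟨neg u, ?_, by simp⟩)
    (le_trans (by exact_mod_cast card_image_le) hM) (le_trans (by simp) hR) (by linarith)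
    (card_Nb hA hO hS2 ha) (le_trans (by simpa using h) hR)
  have h1 := hO (neg u)
  have h2 : 0 < (A.filter (neg u ∈ ·)).card := card_pos.2 ⟨_, mem_filter.2 ⟨ha u v h, by simp⟩⟩
  split_ifs at h1 with a b
  exacts [hS a, b, by omega]

theorem Phi_le (u : ι × Bool) : Phi p A R u ≤ 8 * M * p +
    ((if neg u ∈ D then 40 * M ^ 2 * p else 0) + if neg u ∈ S then 8 else 0) := by
  have m0 : 0 ≤ M := le_trans (by positivity) hR
  have h1 : ∀ {l : List (ι × Bool)}, ((u :: l).map Prod.fst).Nodup → (u :: l).Nodup ∧ neg u ∉ u :: l :=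
    fun h => ⟨h.of_map _, fun k => by
      rcases List.mem_cons.1 k with k | k
      · exact neg_ne _ k
      · exact (List.nodup_cons.1 h).1 (List.mem_map.2 ⟨_, k, rfl⟩)⟩
  have b := fun R' h => K_bd' hp hV hA hO hS hS2 hM hQ hR (a := fun u v => edge u v ∈ A)
    (fun _ _ h => h) (R' := R') h
  by_cases c1 : neg u ∈ S
  · refine le_trans (sum_le_sum fun l _ => ?_) (((b R le_rfl).1 u (neg u)).trans
      (by rw [if_pos c1, ← add_assoc]; exact le_add_of_nonneg_left (by positivity)))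
    split_ifs with a b b
    exacts [pr_le hp _ _ fun _ _ _ _ h => h, (b (h1 a.2)).elim, wt_nonneg (W_nonneg hp _) _ _ _, le_rfl]
  have h2 := hO (neg u)
  rw [if_neg c1] at h2 ⊢
  have h3 : ∑ l ∈ Lle R, (if l ≠ [] ∧ ((u :: l).map Prod.fst).Nodup ∧ edge u (l.headD u) ∉ A then
      pr p A (ed (neg u) u l) else 0) ≤ p * ∑ a, K p (fun u v => edge u v ∈ A) (R - 1) a (neg u) := by
    rcases R with _ | R
    · simpa [Lle] using mul_nonneg hp (sum_nonneg fun _ _ => K_nonneg hp _ _ _ _)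
    simp only [sum_Lle, ne_eq, not_true, false_and, if_false, zero_add, K, mul_sum, Nat.add_sub_cancel]
    refine sum_le_sum fun a _ => sum_le_sum fun l _ => ?_
    simp only [reduceCtorEq, not_false_iff, true_and]
    split_ifs with c d d
    · rw [ed, pr, List.map_cons, List.prod_cons, if_neg (by simpa using c.2)]
      exact mul_le_mul_of_nonneg_left (pr_le hp _ _ fun _ _ _ _ h => h) hp
    · exact (d ⟨(h1 c.1).1.of_cons, fun k => (h1 c.1).2 (List.mem_cons_of_mem _ k)⟩).elim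
    · exact mul_nonneg hp (wt_nonneg (W_nonneg hp _) _ _ _)
    · simp
  by_cases c2 : neg u ∈ D
  · rw [if_pos c2] at h2 ⊢
    have b1 := ((K_bd' hp hV hA hO hS hS2 hM hQ hR (a := fun b v => edge b v ∈ A ∧ v ≠ neg u)
      (fun _ _ h => h.1) le_rfl).2.2.2.2 (neg u) (by simp)).1 u
    have b2 := mul_le_mul_of_nonneg_left ((b (R - 1) (by omega)).2.1 (neg u)) hp
    refine le_trans (b := _ + K p (fun b v => edge b v ∈ A ∧ v ≠ neg u) R u (neg u)) ?_
      ((add_le_add h3 b1).trans (by nlinarith [mul_nonneg m0 hp]))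
    rw [Phi, K, ← sum_add_distrib]
    refine sum_le_sum fun l _ => ?_
    have w0 := wt_nonneg (W_nonneg hp fun b v => edge b v ∈ A ∧ v ≠ neg u) (neg u) u l
    have w1 := pr_nonneg hp A (ed (neg u) u l)
    by_cases d1 : l ≠ [] ∧ ((u :: l).map Prod.fst).Nodup
    · rw [if_pos d1, if_pos (h1 d1.2)]
      by_cases d2 : edge u (l.headD u) ∈ A
      · rw [if_neg (by tauto), zero_add]
        refine pr_le hp _ _ fun b hb c hc e => ⟨e, fun k => ?_⟩
        subst k
        obtain ⟨a, l, rfl⟩ := List.exists_cons_of_ne_nil d1.1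
        have e1 := card_le_one.1 h2 _ (mem_filter.2 ⟨e, by simp⟩) _ (mem_filter.2 ⟨d2, by simp⟩)
        have e2 : neg b ∈ edge u a := by rw [show edge u a = _ from e1.symm]; simp
        rcases mem_edge.1 e2 with k | k
        · exact hA u (neg_inj'.1 k ▸ e)
        · exact ne_neg b ((List.inj_on_of_nodup_map d1.2 hb (by simp) (by simp [← k])).trans k.symm)
      · rw [if_pos ⟨d1.1, d1.2, d2⟩]; linarith
    · rw [if_neg d1]; split_ifs <;> linarith
  · rw [if_neg c2] at h2 ⊢
    have h4 : ∀ c ∈ A, neg u ∉ c := fun c hc k => by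
      have : 0 < (A.filter (neg u ∈ ·)).card := card_pos.2 ⟨c, mem_filter.2 ⟨hc, k⟩⟩
      omega
    have b1 := ((b (R - 1) (by omega)).2.2.2.2 (neg u) fun a h => h4 _ h (by simp)).2
    refine le_trans (le_of_eq (sum_congr rfl fun l _ => ?_)) (h3.trans (by linarith))
    simp only [show edge u (l.headD u) ∉ A from fun h => h4 _ h (by simp), not_false_iff, and_true]

theorem T_le : ∑ x, ∑ y, Phi p A R (neg x) * K p (fun u v => edge u v ∈ A) R x y * Phi p A R y ≤ 5000 := by
  have m0 : 0 ≤ M := le_trans (by positivity) hR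
  obtain ⟨b1, b2, b3, b4, -⟩ := K_bd' hp hV hA hO hS hS2 hM hQ hR (a := fun u v => edge u v ∈ A)
    (fun _ _ h => h) le_rfl
  have k0 := K_nonneg hp (fun u v => edge u v ∈ A) R
  set ψ : ι × Bool → ℝ := fun z => (if z ∈ D then 40 * M ^ 2 * p else 0) + if z ∈ S then 8 else 0
  have p0 : ∀ z, 0 ≤ ψ z := fun z => by positivity
  have p1 : ∑ z, ψ z ≤ 21 := by
    simp only [ψ, sum_add_distrib, sum_ite_mem, univ_inter, sum_const, nsmul_eq_mul]
    have : (S.card : ℝ) ≤ 2 := by exact_mod_cast hS2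
    nlinarith [mul_le_mul_of_nonneg_right hM (show 0 ≤ M ^ 2 * p by positivity)]
  have p2 : ∑ z, ψ (neg z) ≤ 21 := (Equiv.sum_comp (Function.Involutive.toPerm _ neg_neg') ψ).trans_le p1
  have f0 : ∀ u, 0 ≤ Phi p A R u := fun u => sum_nonneg fun l _ => by
    split_ifs; exacts [pr_nonneg hp _ _, le_rfl]
  generalize K p (fun u v => edge u v ∈ A) R = κ at *
  refine (sum_le_sum fun x _ => sum_le_sum (g := fun y => (8 * M * p) ^ 2 * κ x y +
    8 * M * p * (ψ x * κ x y) + 8 * M * p * (ψ (neg y) * κ x y) + 8 * (ψ x * ψ (neg y)))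
    fun y _ => ?_).trans ?_
  · have a1 := Phi_le hp hV hA hO hS hS2 hM hQ hR (neg x)
    have a2 := Phi_le hp hV hA hO hS hS2 hM hQ hR y
    rw [neg_neg'] at a1
    refine (mul_le_mul (mul_le_mul_of_nonneg_right a1 (k0 x y)) a2 (f0 _)
      (mul_nonneg ((f0 _).trans a1) (k0 x y))).trans ?_
    change (_ + ψ x) * _ * (_ + ψ (neg y)) ≤ _
    nlinarith [mul_le_mul_of_nonneg_left (b1 x y) (mul_nonneg (p0 x) (p0 (neg y)))]
  simp only [sum_add_distrib, ← mul_sum, ← sum_mul]
  rw [sum_comm (f := fun x y => ψ (neg y) * κ x y)]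
  simp only [← mul_sum]
  have a1 := (sum_le_sum (s := univ) fun x _ => mul_le_mul_of_nonneg_left (b3 x) (p0 x))
  have a2 := (sum_le_sum (s := univ) fun x _ => mul_le_mul_of_nonneg_left (b2 x) (p0 (neg x)))
  rw [← sum_mul] at a1 a2
  have a3 := mul_le_mul p1 p2 (sum_nonneg fun _ _ => p0 _) (by norm_num)
  have a4 := mul_le_mul_of_nonneg_left (a1.trans (mul_le_mul_of_nonneg_right p1 (by positivity)))
    (show 0 ≤ 8 * M * p by positivity)
  have a5 := mul_le_mul_of_nonneg_left (a2.trans (mul_le_mul_of_nonneg_right p2 (by positivity)))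
    (show 0 ≤ 8 * M * p by positivity)
  nlinarith [mul_le_mul_of_nonneg_left b4 (show 0 ≤ 64 * M ^ 2 * p by positivity)]

end

end Pool.Agent.H.MP_284d10_pr
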