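import Pool.Agent.H.MP_284d10_pr.B

set_option autoImplicit false
set_option linter.unusedSectionVars false

open Finset

namespace Pool.Agent.H.MP_284d10_pr

variable {ι : Type} [Fintype ι] [DecidableEq ι]

theorem ed_val {v : ι × Bool} {c : Finset (ι × Bool)} : ∀ {u l}, ((u :: l).map Prod.fst).Nodup →
    v.1 ∉ l.map Prod.fst → c ∈ ed v u l → (l = [] ∧ c = edge u v) ∨
      ∃ a b, a.1 ≠ b.1 ∧ c = edge a b ∧ (a ∈ l ∨ b ∈ l)
  | u, [], _, _, h => .inl ⟨rfl, by simpa [ed] using h⟩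
  | u, a :: l, h1, h2, h => by
    rcases List.mem_cons.1 h with h | h
    · exact .inr ⟨u, a, fun k => (List.nodup_cons.1 h1).1 (by simp [k]), h, by simp⟩
    · rcases ed_val h1.of_cons (fun k => h2 (List.mem_cons_of_mem _ k)) h with ⟨-, h⟩ | ⟨x, y, a1, a2, a3⟩
      · exact .inr ⟨a, v, fun k => h2 (by simp [k]), h, by simp⟩
      · exact .inr ⟨x, y, a1, a2, by simp only [List.mem_cons]; tauto⟩

theorem ed_occ (v z : ι × Bool) : ∀ u l, (ed v u l).countP (z ∈ ·) ≤
    (if z = neg u then 1 else 0) + (if z = v then 1 else 0) + (l.map Prod.fst).count z.1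
  | u, [] => by simp only [ed, List.countP_singleton, mem_edge]; split_ifs <;> simp_all
  | u, a :: l => by
    have := ed_occ v z a l
    have h : z = neg a → z ≠ a ∧ a.1 = z.1 := fun h => by simp [h]
    have h' : z = a → a.1 = z.1 := fun h => by simp [h]
    simp only [ed, List.countP_cons, mem_edge, List.map_cons, List.count_cons, decide_eq_true_eq,
      beq_iff_eq]
    split_ifs at this ⊢ <;> first | omega | tauto

theorem edge_sat {σ : ι → Bool} {u v : ι × Bool} (h : ∃ z ∈ edge u v, σ z.1 = z.2)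
    (k : σ u.1 = u.2) : σ v.1 = v.2 := by
  obtain ⟨z, h1, h2⟩ := h
  rcases mem_edge.1 h1 with rfl | rfl
  · simp [neg, k] at h2
  · exact h2

theorem ed_sat {σ : ι → Bool} {v : ι × Bool} : ∀ {u l}, (∀ c ∈ ed v u l, ∃ z ∈ c, σ z.1 = z.2) →
    σ u.1 = u.2 → σ v.1 = v.2
  | _, [], h, k => edge_sat (h _ List.mem_cons_self) k
  | _, _ :: _, h, k => ed_sat (fun c hc => h c (List.mem_cons_of_mem _ hc))
      (edge_sat (h _ List.mem_cons_self) k)

abbrev Tu (ι : Type) := (ι × Bool) × (ι × Bool) × List (ι × Bool) × List (ι × Bool) × List (ι × Bool)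

def vars (t : Tu ι) : List ι := (t.1 :: t.2.1 :: (t.2.2.1 ++ t.2.2.2.1 ++ t.2.2.2.2)).map Prod.fst

def cl (t : Tu ι) : List (Finset (ι × Bool)) :=
  ed t.1 (neg t.1) t.2.2.1 ++ ed t.2.1 t.1 t.2.2.2.1 ++ ed (neg t.2.1) t.2.1 t.2.2.2.2

def Fam (R : ℕ) : Finset (Tu ι) := (univ ×ˢ univ ×ˢ Lle R ×ˢ Lle R ×ˢ Lle R).filter fun t =>
  t.2.2.1 ≠ [] ∧ t.2.2.2.1 ≠ [] ∧ t.2.2.2.2 ≠ [] ∧ (vars t).Nodup

theorem cl_unsat (t : Tu ι) (σ : ι → Bool) : ¬ ∀ c ∈ cl t, ∃ z ∈ c, σ z.1 = z.2 := fun h => by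
  simp only [cl, List.mem_append, or_imp, forall_and] at h
  have h1 : σ t.1.1 = t.1.2 := by
    by_contra k
    exact k (ed_sat h.1.1 (Bool.eq_not.2 k))
  have h2 := ed_sat h.1.2 h1
  simpa [neg, h2] using ed_sat h.2 h2

theorem cl_occ (t : Tu ι) (z : ι × Bool) : (cl t).countP (z ∈ ·) ≤
    (vars t).count z.1 + (if z = t.1 then 1 else 0) + if z = neg t.2.1 then 1 else 0 := by
  obtain ⟨x, y, l1, l2, l3⟩ := t
  have h1 := ed_occ x z (neg x) l1
  have h2 := ed_occ y z x l2
  have h3 := ed_occ (neg y) z y l3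
  have h : ∀ a, z = neg a → z ≠ a ∧ a.1 = z.1 := fun a h => by simp [h]
  have h' : ∀ a, z = a → a.1 = z.1 := fun a h => by simp [h]
  have := h x; have := h y; have := h' x; have := h' y
  simp only [cl, vars, List.countP_append, List.map_cons, List.map_append, List.count_cons,
    List.count_append, beq_iff_eq, neg_neg'] at *
  split_ifs at h1 h2 h3 ⊢ <;> first | omega | tauto

variable {R : ℕ} {t : Tu ι}

theorem cl_val (h : t ∈ Fam R) : ∀ c ∈ cl t, ∃ a b, a.1 ≠ b.1 ∧ c = edge a b ∧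
    (a ∈ t.2.2.1 ++ t.2.2.2.1 ++ t.2.2.2.2 ∨ b ∈ t.2.2.1 ++ t.2.2.2.1 ++ t.2.2.2.2) := by
  obtain ⟨x, y, l1, l2, l3⟩ := t
  obtain ⟨-, h1, h2, h3, h4⟩ := mem_filter.1 h
  simp only [vars, List.map_cons, List.map_append, List.nodup_cons, List.mem_cons, List.mem_append,
    List.nodup_append, not_or] at h1 h2 h3 h4
  intro c hc
  simp only [cl, List.mem_append] at hc ⊢
  rcases hc with (hc | hc) | hc <;>
    rcases ed_val (by simp only [List.map_cons, List.nodup_cons, neg_fst]; tauto)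
      (by (try simp only [neg_fst]); tauto) hc with ⟨k, -⟩ | ⟨a, b, a1, a2, a3⟩ <;>
    first | contradiction | exact ⟨a, b, a1, a2, by tauto⟩

theorem cl_nodup (h : t ∈ Fam R) : (cl t).Nodup := List.nodup_iff_count_le_one.2 fun c => by
  by_cases hc : c ∈ cl t
  · have h4 := (mem_filter.1 h).2.2.2.2
    obtain ⟨z, z1, z2⟩ : ∃ z ∈ c, z.1 ∈ (t.2.2.1 ++ t.2.2.2.1 ++ t.2.2.2.2).map Prod.fst := by
      obtain ⟨a, b, -, rfl, k | k⟩ := cl_val h c hc
      exacts [⟨neg a, by simp, List.mem_map.2 ⟨a, k, rfl⟩⟩, ⟨b, by simp, List.mem_map.2 ⟨b, k, rfl⟩⟩]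
    have h1 := cl_occ t z
    have h2 := List.nodup_iff_count_le_one.1 h4 z.1
    simp only [vars, List.map_cons, List.nodup_cons, List.mem_cons, not_or] at h4
    rw [if_neg fun k => h4.1.2 (by rwa [← k]), if_neg fun k => h4.2.1 (by rwa [k] at z2)] at h1
    exact le_trans (List.countP_mono_left fun d _ k => by simpa [beq_iff_eq.1 k]) (h1.trans h2)
  · simp [List.count_eq_zero_of_not_mem hc]

theorem cl_len (h : t ∈ Fam R) : (cl t).length ≤ 3 * R + 3 ∧ (vars t).length ≤ 3 * R + 2 := by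
  have := (mem_filter.1 h).1
  simp only [mem_product, mem_Lle, cl, vars, List.length_append, length_ed, List.length_map,
    List.length_cons] at this ⊢
  omega

theorem sum_Fam (F : Tu ι → ℝ) : ∑ t ∈ Fam R, F t = ∑ x, ∑ y, ∑ l1 ∈ Lle R, ∑ l2 ∈ Lle R, ∑ l3 ∈ Lle R,
    if l1 ≠ [] ∧ l2 ≠ [] ∧ l3 ≠ [] ∧ (vars (x, y, l1, l2, l3)).Nodup then F (x, y, l1, l2, l3) else 0 := by
  simp only [Fam, sum_filter, sum_product]

theorem sum_pr {p : ℝ} (hp : 0 ≤ p) (A : Finset (Finset (ι × Bool))) : ∑ t ∈ Fam R, pr p A (cl t) ≤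
    ∑ x, ∑ y, Phi p A R (neg x) * K p (fun u v => edge u v ∈ A) R x y * Phi p A R y := by
  rw [sum_Fam]
  refine sum_le_sum fun x _ => sum_le_sum fun y _ => ?_
  rw [Phi, K, Phi, sum_mul_sum, sum_mul]
  refine sum_le_sum fun l1 _ => ?_
  rw [sum_mul_sum]
  refine sum_le_sum fun l2 _ => sum_le_sum fun l3 _ => ?_
  have w0 := wt_nonneg (W_nonneg hp fun u v => edge u v ∈ A) y x l2
  have w1 := pr_nonneg hp A
  by_cases h : l1 ≠ [] ∧ l2 ≠ [] ∧ l3 ≠ [] ∧ (vars (x, y, l1, l2, l3)).Nodup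
  · rw [if_pos h]
    simp only [vars, List.map_cons, List.map_append, List.nodup_cons, List.mem_cons, List.mem_append,
      List.nodup_append, not_or] at h
    rw [if_pos (by simp only [List.map_cons, List.nodup_cons, neg_fst]; tauto), if_pos, if_pos
      (by simp only [List.map_cons, List.nodup_cons]; tauto), neg_neg']
    · simp only [cl, pr, List.map_append, List.prod_append]
      exact mul_le_mul_of_nonneg_right (mul_le_mul_of_nonneg_left (pr_le hp _ _ fun _ _ _ _ h => h)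
        (w1 _)) (w1 _)
    · refine ⟨.of_map Prod.fst (by simp only [List.map_cons, List.nodup_cons]; tauto), fun k => ?_⟩
      have := List.mem_map_of_mem (f := Prod.fst) k
      simp only [List.map_cons, List.mem_cons] at this
      tauto
  · rw [if_neg h]
    refine mul_nonneg (mul_nonneg ?_ ?_) ?_ <;> split_ifs <;> first | exact w1 _ | exact w0 | rfl

section
variable {p M : ℝ} (hp : 0 ≤ p) (hV : Fintype.card (ι × Bool) * p ≤ 1) (hQ : p * M ^ 3 ≤ 1 / 8)
  (hR : 6 * (R : ℝ) + 4 ≤ M)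
include hp hV hQ hR

theorem T0 : ∑ t ∈ Fam (ι := ι) R, p ^ (cl t).length ≤ 5000 := by
  have r0 : (0 : ℝ) ≤ R := R.cast_nonneg
  simpa [pr] using (sum_pr hp ∅).trans (T_le (D := ∅) (S := ∅) hp hV (by simp) (by simp) (by simp)
    (by simp) (by simp; linarith) hQ (by linarith))

theorem T1 (h : t ∈ Fam R) : ∑ s ∈ Fam R, pr p (cl t).toFinset (cl s) ≤ 5000 := by
  have r0 : (0 : ℝ) ≤ R := R.cast_nonneg
  refine (sum_pr hp _).trans (T_le (D := (vars t).toFinset ×ˢ univ) (S := {t.1, neg t.2.1}) hp hV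
    (fun u k => ?_) (fun z => ?_) (by simp [subset_iff, vars]) card_le_two ?_ hQ (by linarith))
  · obtain ⟨a, b, h1, h2, -⟩ := cl_val h _ (List.mem_toFinset.1 k)
    have a1 : neg a ∈ edge u (neg u) := by simp [h2]
    have a2 : b ∈ edge u (neg u) := by simp [h2]
    simp only [mem_edge, or_self, neg_inj'] at a1 a2
    simp [a1, a2] at h1
  · have h1 := cl_occ t z
    have h4 := (mem_filter.1 h).2.2.2.2
    have h2 := List.nodup_iff_count_le_one.1 h4 z.1
    have h3 : z = t.1 → z ≠ neg t.2.1 := fun a b => by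
      simp only [vars, List.map_cons, List.nodup_cons, List.mem_cons, not_or] at h4
      exact h4.1.1 (by rw [← a, b]; rfl)
    have h5 := List.count_eq_zero_of_not_mem (a := z.1) (l := vars t)
    refine le_trans (b := (cl t).countP (z ∈ ·)) ?_ ?_
    · rw [List.countP_eq_length_filter]
      exact le_trans (card_le_card fun c => by simp) (List.toFinset_card_le _)
    · simp only [mem_insert, mem_singleton, mem_product, List.mem_toFinset, mem_univ, and_true]
      split_ifs at h1 ⊢ <;> first | omega | tauto | (have := h5 ‹_›; omega)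
  · have := (List.toFinset_card_le _).trans (cl_len h).2
    rw [card_product, card_univ, Fintype.card_bool]
    exact le_trans (by exact_mod_cast (by omega)) hR

end

theorem ext {q θ : ℝ} (hq : 0 ≤ q) (h0 : 0 ≤ θ) {s : ℕ} (hθ : θ ≤ 2 * (Fintype.card ι - s) * q) (R : ℕ) :
    ∀ Z : List ι, Z.Nodup → Z.length + R ≤ s → ∑ r ∈ range (R + 1), θ ^ r ≤
      ∑ l ∈ Lle R, if (Z ++ l.map (Prod.fst (β := Bool))).Nodup then q ^ l.length else 0 := by
  induction R with
  | zero => intro Z h _; simp [Lle, h]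
  | succ R ih =>
    intro Z h hs
    rw [sum_range_succ', sum_Lle, add_comm]
    simp only [pow_zero, List.map_nil, List.append_nil, h, if_true, List.length_nil, pow_succ, ← sum_mul,
      add_le_add_iff_left]
    refine le_trans ?_ (sum_le_sum (f := fun a => if a ∈ Z.toFinsetᶜ ×ˢ univ then
      (∑ r ∈ range (R + 1), θ ^ r) * q else 0) fun a _ => ?_)
    · rw [sum_ite_mem, univ_inter, sum_const, card_product, card_compl, List.toFinset_card_of_nodup h,
        nsmul_eq_mul, card_univ, Fintype.card_bool]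
      push_cast [h.length_le_card]
      have : (Z.length : ℝ) + (R + 1) ≤ s := by exact_mod_cast hs
      have r0 : (0 : ℝ) ≤ R := R.cast_nonneg
      have s0 : 0 ≤ ∑ r ∈ range (R + 1), θ ^ r := by positivity
      nlinarith [mul_le_mul_of_nonneg_left hθ s0, mul_le_mul_of_nonneg_right this (mul_nonneg s0 hq),
        mul_nonneg r0 (mul_nonneg s0 hq), mul_nonneg s0 hq]
    · split_ifs with k
      · refine (mul_le_mul_of_nonneg_right (ih (Z ++ [a.1]) (by
          simpa [List.nodup_append, h] using fun b hb e => by simp [← e, hb] at k) (by simp; omega))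
          hq).trans_eq ?_
        simp only [sum_mul, List.map_cons, List.length_cons, pow_succ, List.append_assoc, ite_mul,
          List.singleton_append, zero_mul]
      · positivity

theorem ext' {q θ : ℝ} (hq : 0 ≤ q) (h0 : 0 ≤ θ) (h1 : θ ≤ 1) {s : ℕ}
    (hθ : θ ≤ 2 * (Fintype.card ι - s) * q) (h2 : R * (1 - θ) ≤ 1 / 2) (Z : List ι) (h : Z.Nodup)
    (hs : Z.length + R ≤ s) : (R : ℝ) / 2 ≤
      ∑ l ∈ Lle R, if l ≠ [] ∧ (Z ++ l.map (Prod.fst (β := Bool))).Nodup then q ^ l.length else 0 := by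
  have a1 := ext hq h0 hθ R Z h hs
  rw [← add_sum_erase _ _ (mem_Lle.2 (by simp : ([] : List (ι × Bool)).length ≤ R)), sum_range_succ'] at a1
  rw [← add_sum_erase _ _ (mem_Lle.2 (by simp : ([] : List (ι × Bool)).length ≤ R))]
  simp only [pow_zero, List.map_nil, List.append_nil, h, if_true, List.length_nil, ne_eq, not_true,
    false_and, if_false] at a1 ⊢
  rw [sum_congr rfl (g := fun l => if (Z ++ l.map Prod.fst).Nodup then q ^ l.length else 0)
    fun l hl => by simp [(mem_erase.1 hl).1]]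
  have a2 := card_nsmul_le_sum (range R) (fun r => θ ^ (r + 1)) (1 / 2) fun r hr => by
    have := one_add_mul_le_pow (a := θ - 1) (by linarith) (r + 1)
    have b : ((r + 1 : ℕ) : ℝ) ≤ R := by exact_mod_cast mem_range.1 hr
    rw [add_sub_cancel] at this
    nlinarith
  rw [card_range, nsmul_eq_mul] at a2
  linarith

theorem low {q θ : ℝ} (hq : 0 ≤ q) (h0 : 0 ≤ θ) (h1 : θ ≤ 1)
    (hθ : θ ≤ 2 * (Fintype.card ι - (3 * R + 2 : ℕ)) * q) (h2 : R * (1 - θ) ≤ 1 / 2) :
    θ ^ 2 * q * (R / 2) ^ 3 ≤ ∑ t ∈ Fam (ι := ι) R, q ^ (cl t).length := by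
  have e := ext' hq h0 h1 hθ h2
  have r0 : (0 : ℝ) ≤ R / 2 := by positivity
  have a0 : ∀ (c : ℝ) (Z : List ι) (P : Prop) [Decidable P] (F : List (ι × Bool) → ℝ), 0 ≤ c →
      Z.length ≤ 2 * R + 2 → (∀ l ∈ Lle R, (if (P ∧ l ≠ []) ∧ (Z ++ l.map Prod.fst).Nodup then
        c * q ^ l.length else 0) ≤ F l) → (if P ∧ Z.Nodup then c * (R / 2) else 0) ≤ ∑ l ∈ Lle R, F l :=
    fun c Z P _ F hc hZ h => by
      refine le_trans ?_ (sum_le_sum h)
      split_ifs with k
      · simpa [mul_sum, k.1] using mul_le_mul_of_nonneg_left (e Z k.2 (by omega)) hc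
      · positivity
  rw [sum_Fam]
  refine le_trans ?_ (sum_le_sum fun x _ => sum_le_sum fun y _ => a0 (q ^ 3 * (R / 2) ^ 2) [x.1, y.1] True
    _ (by positivity) (by simp) fun l1 h1 => le_trans (le_of_eq ?_) (a0 (q ^ 3 * (R / 2) * q ^ l1.length)
      ([x.1, y.1] ++ l1.map Prod.fst) (True ∧ l1 ≠ []) _ (by positivity)
      (by have := mem_Lle.1 h1; simp; omega) fun l2 h2 => le_trans (le_of_eq ?_)
        (a0 (q ^ 3 * q ^ l1.length * q ^ l2.length) ([x.1, y.1] ++ l1.map Prod.fst ++ l2.map Prod.fst)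
        ((True ∧ l1 ≠ []) ∧ l2 ≠ []) _ (by positivity)
        (by have := mem_Lle.1 h1; have := mem_Lle.1 h2; simp; omega) fun l3 _ => le_of_eq ?_)))
  · have a1 : ∀ x : ι × Bool, ∑ y : ι × Bool, (if True ∧ [x.1, y.1].Nodup then
        q ^ 3 * (R / 2) ^ 2 * (R / 2) else 0) = (2 * Fintype.card ι - 2) * (q ^ 3 * (R / 2) ^ 3) := fun x => by
      rw [Fintype.sum_prod_type, sum_congr rfl (g := fun i => if i ∈ univ.erase x.1 then
        2 * (q ^ 3 * (R / 2) ^ 3) else 0) fun i _ => by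
          by_cases h : i = x.1 <;> simp [h, eq_comm]; ring]
      rw [sum_ite_mem, univ_inter, sum_const, card_erase_of_mem (mem_univ _), nsmul_eq_mul, card_univ,
        Nat.cast_sub (Fintype.card_pos_iff.2 ⟨x.1⟩)]
      push_cast; ring
    simp only [a1, sum_const, card_univ, Fintype.card_prod, Fintype.card_bool, nsmul_eq_mul]
    push_cast at hθ ⊢
    have a2 : θ ≤ (2 * Fintype.card ι - 2) * q := by nlinarith
    have a3 := mul_le_mul (show θ ≤ Fintype.card ι * 2 * q by nlinarith) a2 h0 (by positivity)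
    nlinarith [mul_le_mul_of_nonneg_right a3 (show 0 ≤ q * (R / 2) ^ 3 by positivity)]
  · split_ifs <;> ring
  · split_ifs <;> ring
  · simp only [vars, cl, List.length_append, length_ed, List.map_cons, List.map_append, true_and,
      and_assoc, List.cons_append, List.nil_append]
    split_ifs <;> ring

end Pool.Agent.H.MP_284d10_pr
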