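import Pool.Agent.H.MP_284d10_pr.C

set_option autoImplicit false
set_option linter.unusedSectionVars false

open Finset Relation

namespace Pool.Agent.H.MP_284d10_pr

section
variable {V : Type} [Fintype V] {r : V → V → Prop} {S : V → Prop}

theorem grow (h : ∀ a, S a → ∃ c, S c ∧ r c a) (T : List V) (n : ℕ) : ∀ u l,
    Fintype.card V ≤ l.length + n → S u → (u :: l).Nodup → (u :: l ++ T).IsChain r →
    ∃ u' l', u :: l <:+ u' :: l' ∧ (u' :: l').Nodup ∧ (u' :: l' ++ T).IsChain r ∧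
      ∃ c ∈ u' :: l', r c u' := by
  induction n with
  | zero => intro u l a _ b _; have := b.length_le_card; simp at this; omega
  | succ n ih =>
    intro u l a1 a2 a3 a4
    obtain ⟨c, c1, c2⟩ := h u a2
    by_cases k : c ∈ u :: l
    · exact ⟨u, l, List.suffix_rfl, a3, a4, c, k, c2⟩
    · obtain ⟨u', l', b1, b2⟩ := ih c (u :: l) (by simp; omega) c1 (List.nodup_cons.2 ⟨k, a3⟩)
        (List.isChain_cons_cons.2 ⟨c2, a4⟩)
      exact ⟨u', l', (List.suffix_cons _ _).trans b1, b2⟩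

theorem path {x y : V} (h : ReflTransGen r x y) :
    ∃ l, (x :: l).Nodup ∧ (x :: l).IsChain r ∧ [y] <:+ x :: l := by
  induction h using ReflTransGen.head_induction_on with
  | refl => exact ⟨[], by simp, by simp, List.suffix_rfl⟩
  | @head a c h _ ih =>
    obtain ⟨l, a1, a2, a3⟩ := ih
    by_cases k : a ∈ c :: l
    · obtain ⟨s, t, e⟩ := List.append_of_mem k
      have h1 : a :: t <:+ c :: l := e ▸ List.suffix_append _ _
      exact ⟨t, a1.sublist h1.sublist, a2.suffix h1,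
        List.suffix_of_suffix_length_le a3 h1 (by simp)⟩
    · exact ⟨c :: l, List.nodup_cons.2 ⟨k, a1⟩, List.isChain_cons_cons.2 ⟨h, a2⟩,
        a3.trans (List.suffix_cons _ _)⟩

theorem scc (h0 : ∀ a b, r a b → S a ∧ S b) (h : ∀ a b, S a → S b → ReflTransGen r a b) {x y : V}
    (hx : S x) (hy : S y) (e : x ≠ y) : ∃ u l b, (u :: l).Nodup ∧ (u :: l ++ [b]).IsChain r ∧
      b ∈ u :: l ∧ x ∈ u :: l ∧ y ∈ u :: l ∧ (u = x ∧ b = x ∨ b ≠ u ∧ ∃ c ∈ u :: l, r c u) := by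
  have h1 : ∀ a, S a → ∃ z, S z ∧ z ≠ a := fun a _ => by
    by_cases k : x = a
    exacts [⟨y, hy, k ▸ e.symm⟩, ⟨x, hx, k⟩]
  have h2 : ∀ a, S a → ∃ c, S c ∧ r c a := fun a ha => by
    obtain ⟨z, z1, z2⟩ := h1 a ha
    obtain ⟨c, -, k⟩ := (h z a z1 ha).cases_tail.resolve_left z2.symm
    exact ⟨c, (h0 _ _ k).1, k⟩
  have h3 : ∀ a, S a → ∃ c, S c ∧ flip r c a := fun a ha => by
    obtain ⟨z, z1, z2⟩ := h1 a ha
    obtain ⟨c, k, -⟩ := (h a z ha z1).cases_head.resolve_left z2.symm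
    exact ⟨c, (h0 _ _ k).2, k⟩
  obtain ⟨l0, a1, a2, m, a3⟩ := path (h x y hx hy)
  obtain ⟨u1, l1, ⟨m1, b1⟩, b2, b3, b, b4, b5⟩ := grow h3 [] _ y m.reverse (Nat.le_add_left _ _) hy
    (by rw [← List.nodup_reverse]; simpa [a3] using a1)
    (by rw [← a3] at a2; rw [List.append_nil, ← List.isChain_reverse]; simpa [flip] using a2)
  have c1 : (u1 :: l1).reverse = x :: (l0 ++ m1.reverse) := by
    rw [← b1, List.reverse_append, List.reverse_cons, List.reverse_reverse, a3]; rfl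
  have c2 : (x :: (l0 ++ m1.reverse)).Nodup := c1 ▸ List.nodup_reverse.2 b2
  have c3 : (x :: (l0 ++ m1.reverse) ++ [b]).IsChain r := by
    rw [← c1, ← List.reverse_cons, List.isChain_reverse]
    exact List.isChain_cons_cons.2 ⟨b5, by rwa [List.append_nil] at b3⟩
  have c4 : b ∈ x :: (l0 ++ m1.reverse) := c1 ▸ List.mem_reverse.2 b4
  have c5 : y ∈ x :: (l0 ++ m1.reverse) := by rw [← List.cons_append, ← a3]; simp
  by_cases k : b = x
  · exact ⟨x, _, b, c2, c3, c4, by simp, c5, .inl ⟨rfl, k⟩⟩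
  obtain ⟨u, l, d1, d2, d3, d4⟩ := grow h2 [b] _ x _ (Nat.le_add_left _ _) hx c2 c3
  refine ⟨u, l, b, d2, d3, d1.subset c4, d1.subset (by simp), d1.subset c5, .inr ⟨fun k' => ?_, d4⟩⟩
  rcases List.suffix_cons_iff.1 d1 with d | d
  · exact k (k'.trans (List.cons.inj d).1.symm)
  · exact (List.nodup_cons.1 d2).1 (k' ▸ d.subset c4)

end

variable {ι : Type} [Fintype ι] [DecidableEq ι]

def StA (u : ι × Bool) (l : List (ι × Bool)) (e : ι × Bool) := edge u (neg e) :: ed u u l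

def StB (u : ι × Bool) (l : List (ι × Bool)) (b c d e : ι × Bool) :=
  edge c u :: edge d (neg e) :: ed b u l

theorem ed_chain {r : ι × Bool → ι × Bool → Prop} {v : ι × Bool} {c : Finset (ι × Bool)} :
    ∀ {u l}, (u :: l ++ [v]).IsChain r → c ∈ ed v u l →
      ∃ a ∈ u :: l, ∃ b ∈ v :: l, r a b ∧ c = edge a b
  | u, [], k, h => ⟨u, by simp, v, by simp, by simpa using k, by simpa [ed] using h⟩
  | u, a :: l, k, h => by
    rcases List.mem_cons.1 h with h | h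
    · exact ⟨u, by simp, a, by simp, (List.isChain_cons_cons.1 k).1, h⟩
    · obtain ⟨x, hx, y, hy, e⟩ := ed_chain (List.isChain_cons_cons.1 k).2 h
      exact ⟨x, by simp [hx], y, by simp only [List.mem_cons] at hy ⊢; tauto, e⟩

theorem ed_nodup {σ : ι → Bool} {r : ι × Bool → ι × Bool → Prop}
    (hr : ∀ a b, r a b → σ a.1 ≠ a.2 ∧ σ b.1 ≠ b.2) {v : ι × Bool} :
    ∀ {u l}, (u :: l ++ [v]).IsChain r → (u :: l).Nodup → (ed v u l).Nodup
  | _, [], _, _ => by simp [ed]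
  | u, a :: l, k, h => List.nodup_cons.2 ⟨fun hc => by
      obtain ⟨x, hx, y, -, e1, e2⟩ := ed_chain (List.isChain_cons_cons.1 k).2 hc
      rcases mem_edge.1 (show neg u ∈ edge x y by simp [← e2]) with k' | k'
      · exact (List.nodup_cons.1 h).1 (neg_inj'.1 k' ▸ hx)
      · have := (hr _ _ (List.isChain_cons_cons.1 k).1).1
        exact (hr _ _ e1).2 (by rw [← k']; exact Bool.eq_not.2 this),
    ed_nodup hr (List.isChain_cons_cons.1 k).2 h.of_cons⟩

theorem struct {H : Finset (Finset (ι × Bool))} (hH : ∀ c ∈ H, ∃ a b, a.1 ≠ b.1 ∧ c = {a, b})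
    (h0 : H.Nonempty) {σ : ι → Bool} (h1 : ∀ c ∈ H, ∃ l ∈ c, σ l.1 = l.2)
    (h2 : ∀ τ : ι → Bool, (∀ c ∈ H, ∃ l ∈ c, τ l.1 = l.2) → ∀ i, (∃ c ∈ H, ∃ l ∈ c, l.1 = i) → τ i = σ i) :
    ∃ u l, (u :: l).Nodup ∧ ((∃ e ∈ u :: l, (StA u l e).Nodup ∧ ∀ c ∈ StA u l e, c ∈ H) ∨
      ∃ b ∈ u :: l, ∃ c ∈ u :: l, ∃ d ∈ u :: l, ∃ e ∈ u :: l, (StB u l b c d e).Nodup ∧
        ∀ x ∈ StB u l b c d e, x ∈ H) := by
  classical
  let r : ι × Bool → ι × Bool → Prop := fun a b => σ b.1 ≠ b.2 ∧ edge a b ∈ H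
  let P : ι × Bool → Prop := fun z => σ z.1 ≠ z.2 ∧ ∃ c ∈ H, ∃ l ∈ c, l.1 = z.1
  obtain ⟨z, hz, hm⟩ := exists_min_image (univ.filter P)
    (fun z => (univ.filter (ReflTransGen r z)).card) (by
      obtain ⟨c, hc⟩ := h0
      obtain ⟨l, a, b⟩ := h1 c hc
      exact ⟨neg l, mem_filter.2 ⟨mem_univ _, by simp [neg, b], c, hc, l, a, rfl⟩⟩)
  have a1 : ∀ w, ReflTransGen r z w → P w := fun w h => by
    rcases h.cases_tail with rfl | ⟨c, -, k⟩
    exacts [(mem_filter.1 hz).2, ⟨k.1, _, k.2, w, by simp, rfl⟩]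
  have a2 : ∀ w, ReflTransGen r z w → ReflTransGen r w z := fun w h => by
    have := eq_of_subset_of_card_le (s := univ.filter (ReflTransGen r w)) (fun v hv =>
      mem_filter.2 ⟨mem_univ _, h.trans (mem_filter.1 hv).2⟩) (hm w (by simpa using a1 w h))
    exact (mem_filter.1 (this.ge (mem_filter.2 ⟨mem_univ z, .refl⟩))).2
  have a3 : ∀ a b, ReflTransGen r z a → ReflTransGen r a b →
      ReflTransGen (fun a b => r a b ∧ ReflTransGen r z a) a b := fun a b h k => by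
    induction k with
    | refl => exact .refl
    | tail k1 k2 ih => exact ih.tail ⟨k2, h.trans k1⟩
  obtain ⟨x, y, hx, hy, e1, e2⟩ : ∃ x y, ReflTransGen r z x ∧ ReflTransGen r z y ∧ x ≠ y ∧
      edge x (neg y) ∈ H := by
    let τ : ι → Bool := fun i => if ReflTransGen r z (i, !σ i) then !σ i else σ i
    have b1 : ∀ w : ι × Bool, σ w.1 ≠ w.2 → (w.1, !σ w.1) = w := fun w h =>
      Prod.ext rfl (Bool.eq_not.2 h.symm).symm
    have b2 : ∀ w : ι × Bool, σ w.1 = w.2 → τ w.1 ≠ w.2 → ReflTransGen r z (neg w) := fun w h k => by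
      by_contra k'
      exact k (by simp only [τ, h]; exact if_neg k')
    have b3 : ∀ a b : ι × Bool, a.1 ≠ b.1 → {a, b} ∈ H → σ a.1 = a.2 → τ a.1 ≠ a.2 → τ b.1 ≠ b.2 →
        ∃ x y, ReflTransGen r z x ∧ ReflTransGen r z y ∧ x ≠ y ∧ edge x (neg y) ∈ H :=
      fun a b c1 c2 c3 c4 c5 => by
        have c6 : edge (neg a) b ∈ H := by simpa [edge] using c2
        refine ⟨neg a, neg b, b2 a c3 c4, b2 b (by_contra fun k => c5 ?_) c5,
          fun k => c1 (by rw [neg_inj'.1 k]), by simpa using c6⟩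
        simp only [τ, b1 b k, (b2 a c3 c4).tail ⟨k, c6⟩, if_true]
        exact (Bool.eq_not.2 (Ne.symm k)).symm
    by_contra k
    have := h2 τ (fun c hc => by
      obtain ⟨a, b, c1, rfl⟩ := hH c hc
      by_contra k'
      simp only [mem_insert, mem_singleton, exists_eq_or_imp, exists_eq_left, not_or] at k'
      obtain ⟨l, c2, c3⟩ := h1 _ hc
      rcases mem_insert.1 c2 with rfl | c2
      · exact k (b3 _ _ c1 hc c3 k'.1 k'.2)
      · rw [mem_singleton.1 c2] at c3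
        exact k (b3 _ _ c1.symm (pair_comm a b ▸ hc) c3 k'.2 k'.1)) z.1 (a1 z .refl).2
    simp [τ, b1 z (a1 z .refl).1, ReflTransGen.refl] at this
  obtain ⟨u, l, b, c1, c2, c3, c4, c5, c6⟩ := scc (S := ReflTransGen r z)
    (r := fun a b => r a b ∧ ReflTransGen r z a) (fun a b h => ⟨h.2, h.2.tail h.1⟩)
    (fun a b h k => a3 a b h ((a2 a h).trans k)) hx hy e1
  have d1 := ed_nodup (σ := σ) (fun a b h => ⟨(a1 a h.2).1, h.1.1⟩) c2 c1
  have d2 : ∀ w ∈ edge x (neg y), σ w.1 = w.2 := fun w hw => by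
    rcases mem_edge.1 hw with rfl | rfl
    exacts [Bool.eq_not.2 (a1 x hx).1, Bool.eq_not.2 (a1 y hy).1]
  have d3 : (edge x (neg y) :: ed b u l).Nodup := List.nodup_cons.2 ⟨fun h => by
    obtain ⟨α, -, β, -, k1, k2⟩ := ed_chain c2 h
    exact k1.1.1 (d2 β (by simp [k2])), d1⟩
  have d4 : ∀ w ∈ edge x (neg y) :: ed b u l, w ∈ H := fun w hw => by
    rcases List.mem_cons.1 hw with rfl | hw
    · exact e2
    · obtain ⟨α, -, β, -, k1, rfl⟩ := ed_chain c2 hw
      exact k1.1.2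
  refine ⟨u, l, c1, c6.imp ?_ ?_⟩
  · rintro ⟨rfl, rfl⟩
    exact ⟨y, c5, d3, d4⟩
  · rintro ⟨k, c, k1, k2⟩
    refine ⟨b, c3, c, k1, x, c4, y, c5, List.nodup_cons.2 ⟨fun h => ?_, d3⟩, fun w hw => ?_⟩
    · rcases List.mem_cons.1 h with h | h
      · exact k2.1.1 (d2 u (by simp [← h]))
      · obtain ⟨α, -, β, k3, k4, k5⟩ := ed_chain c2 h
        rcases mem_edge.1 (show u ∈ edge α β by simp [← k5]) with k' | k'
        · exact k2.1.1 (by rw [k']; exact Bool.eq_not.2 (a1 α k4.2).1)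
        · rcases List.mem_cons.1 k3 with k3 | k3
          exacts [k (k3 ▸ k'.symm), (List.nodup_cons.1 c1).1 (k' ▸ k3)]
    · rcases List.mem_cons.1 hw with rfl | hw
      exacts [k2.1.2, d4 w hw]

theorem sum_len {V : Type} [Fintype V] [DecidableEq V] (R : ℕ) : ∀ g : ℕ → ℝ,
    ∑ l ∈ Lle (V := V) R, g l.length = ∑ r ∈ range (R + 1), Fintype.card V ^ r * g r := by
  induction R with
  | zero => simp [Lle]
  | succ R ih =>
    intro g
    rw [sum_Lle, sum_range_succ', add_comm]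
    simp only [List.length_cons, ih fun r => g (r + 1), sum_const, card_univ, nsmul_eq_mul, mul_sum]
    simp [pow_succ', mul_assoc]

theorem geo {V : Type} [Fintype V] [DecidableEq V] (R j : ℕ) {p q : ℝ} (hp : 0 ≤ p)
    (h : Fintype.card V * p ≤ q) (hq : q < 1) : ∑ _u : V, ∑ l ∈ Lle (V := V) R,
      (l.length + 1 : ℝ) ^ j * p ^ (l.length + 1) ≤ j.factorial * (1 / (1 - q) ^ (j + 1)) := by
  have q0 : 0 ≤ q := le_trans (by positivity) h
  rw [sum_len R fun r => (r + 1 : ℝ) ^ j * p ^ (r + 1), sum_const, card_univ, nsmul_eq_mul, mul_sum]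
  have h1 := (hasSum_choose_mul_geometric_of_norm_lt_one (𝕜 := ℝ) j (r := q)
    (by rwa [Real.norm_of_nonneg q0])).mul_left (j.factorial : ℝ)
  refine le_trans (sum_le_sum fun r _ => ?_) (sum_le_hasSum _ (fun r _ => by positivity) h1)
  have a1 : (r + 1 : ℝ) ^ j ≤ j.factorial * (r + j).choose j := by
    exact_mod_cast (Nat.pow_succ_le_ascFactorial _ _).trans_eq (Nat.ascFactorial_eq_factorial_mul_choose r j)
  have a2 : (Fintype.card V * p) ^ (r + 1) ≤ q ^ r :=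
    (pow_le_pow_left₀ (by positivity) h _).trans (pow_le_pow_of_le_one q0 hq.le (by omega))
  refine le_trans (le_of_eq ?_) ((mul_le_mul a1 a2 (by positivity) (by positivity)).trans_eq
    (mul_assoc _ _ _))
  rw [mul_pow, pow_succ' (Fintype.card V : ℝ)]; ring

end Pool.Agent.H.MP_284d10_pr
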