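import Pool.Agent.H.MP_284d10_pr.D

set_option autoImplicit false
set_option linter.unusedSectionVars false

open Finset

namespace Pool.Agent.H.MP_284d10_pr

section
variable {C : Type} [Fintype C] [DecidableEq C] {N m : ℕ}

def cnt (N m : ℕ) (F : Finset C) : ℕ := (univ.filter fun e : Fin N ≃ C => ∀ c ∈ F, (e.symm c : ℕ) < m).card

theorem cnt_swap {F : Finset C} {c d : C} (hc : c ∉ F) (hd : d ∉ F) :
    cnt N m (insert c F) = cnt N m (insert d F) :=
  card_equiv (Equiv.equivCongr (.refl _) (Equiv.swap c d)) fun e => by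
    have h : ∀ x, (Equiv.equivCongr (.refl _) (Equiv.swap c d) e).symm x = e.symm (Equiv.swap c d x) :=
      fun x => rfl
    simp only [mem_filter, mem_univ, true_and, forall_mem_insert, h, Equiv.swap_apply_right]
    exact and_congr_right' (forall₂_congr fun x hx => by
      rw [Equiv.swap_apply_of_ne_of_ne (ne_of_mem_of_not_mem hx hc) (ne_of_mem_of_not_mem hx hd)])

theorem cnt_ins (hm : m ≤ N) {F : Finset C} {c : C} (hc : c ∉ F) :
    (Fintype.card C - F.card : ℝ) * cnt N m (insert c F) = (m - F.card) * cnt N m F := by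
  have h1 : ∑ d ∈ Fᶜ, (cnt N m (insert d F) : ℝ) = (Fintype.card C - F.card : ℝ) * cnt N m (insert c F) := by
    rw [sum_congr rfl fun d hd => by rw [cnt_swap (mem_compl.1 hd) hc], sum_const, card_compl,
      nsmul_eq_mul, Nat.cast_sub (card_le_univ _)]
  rw [← h1]
  simp only [cnt, card_filter, forall_mem_insert]
  push_cast
  rw [sum_comm, mul_sum]
  refine sum_congr rfl fun e _ => ?_
  split_ifs with h
  · have h2 : (univ.filter fun d => (e.symm d : ℕ) < m).card = m :=
      (card_equiv e.symm (t := univ.filter fun i : Fin N => (i : ℕ) < m) (by simp)).trans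
        (by simp [Fin.card_filter_val_lt, hm])
    have h3 : Fᶜ.filter (fun d => (e.symm d : ℕ) < m) = (univ.filter fun d => (e.symm d : ℕ) < m) \ F := by
      ext; simp [and_comm]
    simp only [and_iff_left h, sum_boole, mul_one]
    rw [h3, card_sdiff_of_subset fun d hd => by simpa using h d hd, h2,
      Nat.cast_sub (h2 ▸ card_le_card fun d hd => by simpa using h d hd)]
  · simp [h]

theorem cnt_le (hN : Fintype.card C = N) (hm : m ≤ N) (F : Finset C) :
    (cnt N m F : ℝ) ≤ Fintype.card (Fin N ≃ C) * (m / N) ^ F.card := by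
  induction F using Finset.induction_on with
  | empty => simp [cnt]
  | insert c F hc ih =>
    have h1 := cnt_ins hm hc
    have h2 : (F.card : ℝ) + 1 ≤ N := by
      exact_mod_cast (card_insert_of_notMem hc).ge.trans ((card_le_univ _).trans hN.le)
    have h3 : (0 : ℝ) ≤ F.card := by positivity
    have h4 : (m : ℝ) ≤ N := by exact_mod_cast hm
    have h5 : (0 : ℝ) ≤ cnt N m F := by positivity
    rw [card_insert_of_notMem hc, pow_succ, ← mul_assoc]
    refine le_trans ?_ (mul_le_mul_of_nonneg_right ih (by positivity))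
    rw [← mul_div_assoc, le_div_iff₀ (by linarith)]
    refine le_of_mul_le_mul_left ?_ (show (0 : ℝ) < N - F.card by linarith)
    rw [hN] at h1
    rw [← mul_assoc, h1]
    nlinarith [mul_le_mul_of_nonneg_left h4 (mul_nonneg h3 h5)]

theorem le_cnt (hN : Fintype.card C = N) (hm : m ≤ N) {r : ℕ} (hr : r ≤ m) (F : Finset C) (hF : F.card ≤ r) :
    Fintype.card (Fin N ≃ C) * ((m - r) / N : ℝ) ^ F.card ≤ (cnt N m F : ℝ) := by
  induction F using Finset.induction_on with
  | empty => simp [cnt]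
  | insert c F hc ih =>
    have h1 := cnt_ins hm hc
    rw [card_insert_of_notMem hc] at hF ⊢
    have h2 : (F.card : ℝ) + 1 ≤ r := by exact_mod_cast hF
    have h3 : (0 : ℝ) ≤ F.card := by positivity
    have h4 : (m : ℝ) ≤ N := by exact_mod_cast hm
    have h6 : (r : ℝ) ≤ m := by exact_mod_cast hr
    have h5 : (0 : ℝ) ≤ cnt N m F := by positivity
    have h7 : (0 : ℝ) ≤ cnt N m (insert c F) := by positivity
    rw [pow_succ, ← mul_assoc]
    refine (mul_le_mul_of_nonneg_right (ih (by omega)) (div_nonneg (by linarith) (by positivity))).trans ?_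
    rw [← mul_div_assoc, div_le_iff₀ (by linarith)]
    rw [hN] at h1
    nlinarith

end

variable {ι Ω : Type} [Fintype ι] [DecidableEq ι] [Fintype Ω] {X : Ω → Finset (Finset (ι × Bool))}
  {w p : ℝ} (hw : 0 ≤ w) (hp : 0 ≤ p)
  (hU : ∀ F : Finset (Finset (ι × Bool)), ∑ ω, (if F ⊆ X ω then (1 : ℝ) else 0) ≤ w * p ^ F.card)
include hw hp hU

open Classical in
theorem fm {q : ℝ} (h : Fintype.card (ι × Bool) * p ≤ q) (hq : q < 1) :
    ((univ.filter fun ω => ∃ u l, (u :: l).Nodup ∧ ((∃ e ∈ u :: l, (StA u l e).Nodup ∧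
      ∀ c ∈ StA u l e, c ∈ X ω) ∨ ∃ b ∈ u :: l, ∃ c ∈ u :: l, ∃ d ∈ u :: l, ∃ e ∈ u :: l,
      (StB u l b c d e).Nodup ∧ ∀ x ∈ StB u l b c d e, x ∈ X ω)).card : ℝ) ≤
      w * (p / (1 - q) ^ 2 + 24 * p ^ 2 / (1 - q) ^ 5) := by
  let I : List (Finset (ι × Bool)) → Ω → ℝ := fun L ω => if L.Nodup ∧ L.toFinset ⊆ X ω then 1 else 0
  have i0 : ∀ L ω, 0 ≤ I L ω := fun L ω => by positivity
  have i1 : ∀ L, ∑ ω, I L ω ≤ w * p ^ L.length := fun L => by
    by_cases k : L.Nodup
    · simpa only [I, k, true_and, List.toFinset_card_of_nodup k] using hU L.toFinset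
    · simp only [I, k, false_and, if_false, sum_const_zero]; positivity
  have s1 : ∀ {α : Type} {s : Finset α} {f : α → ℝ} {a : α}, (∀ b, 0 ≤ f b) → a ∈ s → 1 ≤ f a →
      1 ≤ ∑ b ∈ s, f b := fun h1 h2 h3 => h3.trans (single_le_sum (fun b _ => h1 b) h2)
  rw [card_filter]
  push_cast
  refine (sum_le_sum (g := fun ω => ∑ u, ∑ l ∈ Lle (Fintype.card (ι × Bool)),
    (∑ e ∈ (u :: l).toFinset, I (StA u l e) ω + ∑ b ∈ (u :: l).toFinset, ∑ c ∈ (u :: l).toFinset,
      ∑ d ∈ (u :: l).toFinset, ∑ e ∈ (u :: l).toFinset, I (StB u l b c d e) ω)) fun ω _ => ?_).trans ?_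
  · split_ifs with k
    · obtain ⟨u, l, k1, k2⟩ := k
      refine s1 (fun _ => by positivity) (mem_univ u) (s1 (fun _ => by positivity) (a := l)
        (mem_Lle.2 k1.of_cons.length_le_card) ?_)
      rcases k2 with ⟨e, a1, a2, a3⟩ | ⟨b, a1, c, a2, d, a3, e, a4, a5, a6⟩
      · exact le_add_of_le_of_nonneg (s1 (fun _ => i0 _ _) (List.mem_toFinset.2 a1)
          (if_pos ⟨a2, fun c hc => a3 c (List.mem_toFinset.1 hc)⟩).ge) (by positivity)
      · exact le_add_of_nonneg_of_le (by positivity) (s1 (fun _ => by positivity) (List.mem_toFinset.2 a1)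
          (s1 (fun _ => by positivity) (List.mem_toFinset.2 a2) (s1 (fun _ => by positivity)
          (List.mem_toFinset.2 a3) (s1 (fun _ => i0 _ _) (List.mem_toFinset.2 a4)
          (if_pos ⟨a5, fun c hc => a6 c (List.mem_toFinset.1 hc)⟩).ge))))
    · positivity
  have g1 := geo (Fintype.card (ι × Bool)) 1 hp h hq
  have g4 := geo (Fintype.card (ι × Bool)) 4 hp h hq
  refine le_trans ?_ ((mul_le_mul_of_nonneg_left (add_le_add (mul_le_mul_of_nonneg_left g1 hp)
    (mul_le_mul_of_nonneg_left g4 (sq_nonneg p))) hw).trans_eq (by norm_num [Nat.factorial]; left; ring))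
  rw [sum_comm]
  simp only [mul_sum, ← sum_add_distrib]
  refine sum_le_sum fun u _ => ?_
  rw [sum_comm]
  refine sum_le_sum fun l _ => ?_
  have s2 : ∀ (f : ι × Bool → Ω → ℝ) (c : ℝ), 0 ≤ c → (∀ a, ∑ ω, f a ω ≤ c) →
      ∑ ω, ∑ a ∈ (u :: l).toFinset, f a ω ≤ (l.length + 1) * c := fun f c hc k => by
    rw [sum_comm]
    refine (sum_le_card_nsmul _ _ _ fun a _ => k a).trans ?_
    rw [nsmul_eq_mul]
    gcongr
    exact_mod_cast List.toFinset_card_le (u :: l)
  simp only [sum_add_distrib]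
  refine (add_le_add (s2 _ (w * p ^ (l.length + 2)) (by positivity) fun e => by
    simpa [StA, length_ed] using i1 (StA u l e)) (s2 _ _ (by positivity) fun b => s2 _ _ (by positivity)
    fun c => s2 _ _ (by positivity) fun d => s2 _ (w * p ^ (l.length + 3)) (by positivity) fun e => by
    simpa [StB, length_ed] using i1 (StB u l b c d e))).trans_eq (by ring)

open Classical in
theorem sm {q M c : ℝ} {R : ℕ} (hV : Fintype.card (ι × Bool) * p ≤ 1) (hQ : p * M ^ 3 ≤ 1 / 8)
    (hR : 6 * (R : ℝ) + 4 ≤ M) (hL : ∀ F : Finset (Finset (ι × Bool)), (∀ c ∈ F, ∃ a b, a.1 ≠ b.1 ∧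
      c = edge a b) → F.card ≤ 3 * R + 3 → w * q ^ F.card ≤ ∑ ω, if F ⊆ X ω then (1 : ℝ) else 0)
    (hc : 0 ≤ c) (h : c ≤ ∑ t ∈ Fam (ι := ι) R, q ^ (cl t).length) : (w * c) ^ 2 ≤
      (univ.filter fun ω => ¬ ∃ σ : ι → Bool, ∀ x ∈ X ω, ∃ z ∈ x, σ z.1 = z.2).card * (w * 5000 ^ 2) := by
  let Z : Ω → ℝ := fun ω => ∑ t ∈ Fam R, if (cl t).toFinset ⊆ X ω then 1 else 0
  have h1 : w * c ≤ ∑ ω ∈ univ.filter fun ω => ¬ ∃ σ : ι → Bool, ∀ x ∈ X ω, ∃ z ∈ x, σ z.1 = z.2, Z ω := by
    rw [sum_filter_of_ne fun ω _ k ⟨σ, hσ⟩ => k (sum_eq_zero fun t _ => if_neg fun k' =>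
      cl_unsat t σ fun x hx => hσ x (k' (List.mem_toFinset.2 hx))), sum_comm]
    refine (mul_le_mul_of_nonneg_left h hw).trans ?_
    rw [mul_sum]
    refine sum_le_sum fun t ht => ?_
    rw [← List.toFinset_card_of_nodup (cl_nodup ht)]
    exact hL _ (fun x hx => let ⟨a, b, a1, a2, _⟩ := cl_val ht x (List.mem_toFinset.1 hx); ⟨a, b, a1, a2⟩)
      ((List.toFinset_card_le _).trans (cl_len ht).1)
  refine (pow_le_pow_left₀ (by positivity) h1 2).trans (sq_sum_le_card_mul_sum_sq.trans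
    (mul_le_mul_of_nonneg_left ((sum_le_sum_of_subset_of_nonneg (subset_univ _) fun _ _ _ =>
    sq_nonneg _).trans ?_) (by positivity)))
  simp only [Z, sq, sum_mul_sum]
  rw [sum_comm]
  refine (sum_le_sum (g := fun t => w * 5000 * p ^ (cl t).length) fun t ht => ?_).trans (by
    rw [← mul_sum, ← mul_assoc]
    exact mul_le_mul_of_nonneg_left (T0 hp hV hQ hR) (by positivity))
  rw [sum_comm]
  refine le_trans (sum_le_sum fun s hs => ?_) ((mul_sum _ _ _).symm.trans_le ((mul_le_mul_of_nonneg_left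
    (T1 hp hV hQ hR ht) (show 0 ≤ w * p ^ (cl t).length by positivity)).trans_eq (by ring)))
  simp only [ite_zero_mul_ite_zero, mul_one, ← union_subset_iff]
  refine (hU _).trans_eq ?_
  rw [pr, ← List.prod_toFinset _ (cl_nodup hs), prod_ite, prod_const_one, prod_const, one_mul,
    ← List.toFinset_card_of_nodup (cl_nodup ht), union_comm, ← card_sdiff_add_card, ← sdiff_eq_filter]
  ring

end Pool.Agent.H.MP_284d10_pr
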