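import Pool.Agent.H.MP_284d10_pr.E

set_option autoImplicit false
set_option linter.unusedSectionVars false

open Finset

namespace Pool.Agent.H.MP_284d10_pr

abbrev Cl (n : ℕ) := {c : Finset (Fin n × Bool) // c.card = 2 ∧ (c.image Prod.fst).card = 2}

theorem card_Cl (n : ℕ) : n * n - n ≤ Nat.card (Cl n) := by
  rw [Nat.card_eq_fintype_card, Fintype.card_subtype]
  refine le_trans (by simp) (card_le_card_of_injOn (s := (univ : Finset (Fin n)).offDiag)
    (fun x => {(x.1, true), (x.2, false)}) (fun x hx => ?_) fun x _ y _ h => ?_)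
  · have : x.1 ≠ x.2 := by simpa using hx
    simp [card_pair, this]
  · have h1 : (x.1, true) ∈ ({(y.1, true), (y.2, false)} : Finset _) := by simp [← show _ = _ from h]
    have h2 : (x.2, false) ∈ ({(y.1, true), (y.2, false)} : Finset _) := by simp [← show _ = _ from h]
    simp_all [Prod.ext_iff]

open Classical in
theorem main {L n : ℕ} (hL : 10 ^ 20 ≤ L) (hn : n = 4000 * L ^ 3)
    (P : (Fin (Nat.card (Cl n)) ≃ Cl n) → Prop) (hP : ∀ e, P e → ∃ m : ℕ,
      (∀ j : ℕ, j < m → ∃ a : Fin n → Bool, ∀ c : Cl n, ((e.symm c : Fin _) : ℕ) < j →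
        ∃ l ∈ c.val, a l.1 = l.2) ∧ ∃ H : Finset (Cl n), H.Nonempty ∧
        (∀ c ∈ H, ((e.symm c : Fin _) : ℕ) < m) ∧ ∃ a : Fin n → Bool, (∀ c ∈ H, ∃ l ∈ c.val, a l.1 = l.2) ∧
          ∀ b : Fin n → Bool, (∀ c ∈ H, ∃ l ∈ c.val, b l.1 = l.2) →
            ∀ i : Fin n, (∃ c ∈ H, ∃ l ∈ c.val, l.1 = i) → b i = a i) :
    (Nat.card {e // P e} : ℝ) / Nat.card (Fin (Nat.card (Cl n)) ≃ Cl n) ≤ 1 - 1 / 10 ^ 19 := by
  have l0 : (10 : ℝ) ^ 20 ≤ L := by exact_mod_cast hL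
  have l1 : (0 : ℝ) < L := by linarith
  have n0 : (n : ℝ) = 4000 * L ^ 3 := by exact_mod_cast hn
  have n1 : (4000 : ℝ) * L ^ 2 ≤ n := by rw [n0]; nlinarith
  have n2 : (0 : ℝ) < n := by rw [n0]; positivity
  have N0 : (n : ℝ) * n / 2 ≤ Nat.card (Cl n) := by
    have h := (Nat.cast_le (α := ℝ)).2 (card_Cl n)
    rw [Nat.cast_sub (Nat.le_mul_self n), Nat.cast_mul] at h
    nlinarith
  have hN : Fintype.card (Cl n) = Nat.card (Cl n) := Nat.card_eq_fintype_card.symm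
  generalize Nat.card (Cl n) = N at *
  have N1 : (0 : ℝ) < N := lt_of_lt_of_le (by positivity) N0
  have e0 : 0 < 1 / (8 * L : ℝ) := by positivity
  have e1 : 1 / (8 * L : ℝ) ≤ 1 / 8 := by gcongr; linarith
  obtain ⟨m, m1, m2⟩ : ∃ m : ℕ, m ≤ N * (1 - 1 / (8 * L : ℝ)) / (2 * n) ∧
      N * (1 - 1 / (8 * L : ℝ)) / (2 * n) < m + 1 :=
    ⟨_, Nat.floor_le (by have : 0 ≤ 1 - 1 / (8 * L : ℝ) := by linarith
                         positivity), Nat.lt_floor_add_one _⟩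
  rw [le_div_iff₀ (by positivity)] at m1
  rw [div_lt_iff₀ (by positivity)] at m2
  have m0 : (0 : ℝ) ≤ m := by positivity
  have n3 : (1 : ℝ) ≤ n := by nlinarith
  have m3 : m ≤ N := by
    exact_mod_cast (show (m : ℝ) ≤ N by nlinarith [mul_pos N1 e0, mul_le_mul_of_nonneg_left n3 m0])
  have m4 : ((3 * L + 3 : ℕ) : ℝ) ≤ m := by push_cast; nlinarith
  have p1 : Fintype.card (Fin n × Bool) * ((m : ℝ) / N) ≤ 1 - 1 / (8 * L) := by
    rw [← mul_div_assoc, div_le_iff₀ N1]; simp only [Fintype.card_prod, Fintype.card_fin, Fintype.card_bool]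
    push_cast; linarith
  have p2 : (m : ℝ) / N ≤ 1 / (8000 * L ^ 3) := by
    rw [div_le_div_iff₀ N1 (by positivity)]; nlinarith
  have q1 : 1 - 1 / (4 * L : ℝ) ≤ 2 * n * ((m - (3 * L + 3 : ℕ)) / N) := by
    rw [← mul_div_assoc, le_div_iff₀ N1, show 1 / (4 * L : ℝ) = 2 * (1 / (8 * L)) by field_simp; ring]
    have : 2 * n * (3 * L + 4) ≤ N * (1 / (8 * L : ℝ)) := by
      rw [mul_one_div, le_div_iff₀ (by positivity)]; nlinarith
    push_cast; linarith
  let X : (Fin N ≃ Cl n) → Finset (Finset (Fin n × Bool)) := fun e =>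
    (univ.filter fun c => (e.symm c : ℕ) < m).map (.subtype _)
  have x1 : ∀ F : Finset (Finset (Fin n × Bool)), (∀ c ∈ F, c.card = 2 ∧ (c.image Prod.fst).card = 2) →
      ∃ G : Finset (Cl n), G.card = F.card ∧ ∑ ω, (if F ⊆ X ω then (1 : ℝ) else 0) = cnt N m G :=
    fun F h => ⟨F.subtype _, by rw [card_subtype, filter_true_of_mem h], by
      rw [sum_boole, cnt]
      congr 2; ext e
      simp only [X, subset_iff, mem_map, mem_filter, mem_univ, true_and, mem_subtype]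
      exact ⟨fun k c hc => by obtain ⟨d, a, b⟩ := k hc; rwa [← Subtype.ext b],
        fun k c hc => ⟨⟨c, h c hc⟩, k _ hc, rfl⟩⟩⟩
  have w0 : (0 : ℝ) < Fintype.card (Fin N ≃ Cl n) := by
    exact_mod_cast Fintype.card_pos_iff.2 ⟨(Fintype.equivFinOfCardEq hN).symm⟩
  have hU : ∀ F : Finset (Finset (Fin n × Bool)), ∑ ω, (if F ⊆ X ω then (1 : ℝ) else 0) ≤
      Fintype.card (Fin N ≃ Cl n) * ((m : ℝ) / N) ^ F.card := fun F => by
    by_cases h : ∀ c ∈ F, c.card = 2 ∧ (c.image Prod.fst).card = 2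
    · obtain ⟨G, a, b⟩ := x1 F h
      rw [b, ← a]; exact cnt_le hN m3 G
    · rw [sum_eq_zero fun e _ => if_neg fun k => h fun c hc => by
        obtain ⟨d, -, rfl⟩ := mem_map.1 (k hc); exact d.2]
      positivity
  have q0 : (0 : ℝ) ≤ (m - (3 * L + 3 : ℕ)) / N := div_nonneg (by linarith) N1.le
  have t0 : 1 / (4 * L : ℝ) ≤ 1 / 4 := by gcongr; linarith
  have t1 : 1 / (2 * L : ℝ) = 2 * (1 / (4 * L)) := by field_simp; ring
  have t2 : 0 < 1 / (4 * L : ℝ) := by positivity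
  have a1 := fm w0.le (by positivity) hU p1 (by linarith)
  have a2 := sm w0.le (by positivity) hU (R := L) (M := 10 * L) (c := 1 / 512000)
    (q := (m - (3 * L + 3 : ℕ)) / N) (by linarith)
    ((mul_le_mul_of_nonneg_right p2 (by positivity)).trans_eq (by field_simp; norm_num)) (by linarith)
    (fun F h k => by
      obtain ⟨G, a, b⟩ := x1 F fun c hc => by
        obtain ⟨a, b, h1, rfl⟩ := h c hc
        have : neg a ≠ b := fun k => h1 (by simp [← k])
        simp [edge, card_pair, this, h1]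
      rw [b, ← a]; exact le_cnt hN m3 (by exact_mod_cast m4) G (a ▸ k)) (by norm_num)
    (le_trans ?_ (low (θ := 1 - 1 / (2 * L)) q0 (by linarith) (by linarith) ?_
      (by field_simp; norm_num)))
  · have a3 := (Nat.cast_le (α := ℝ)).2 ((card_le_card (s := univ.filter P) (t := (univ.filter fun ω => ¬ ¬ ∃ σ : Fin n → Bool, ∀ x ∈ X ω,
        ∃ z ∈ x, σ z.1 = z.2) ∪ univ.filter fun ω => ∃ u l, (u :: l).Nodup ∧ ((∃ e ∈ u :: l,
        (StA u l e).Nodup ∧ ∀ c ∈ StA u l e, c ∈ X ω) ∨ ∃ b ∈ u :: l, ∃ c ∈ u :: l, ∃ d ∈ u :: l,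
        ∃ e ∈ u :: l, (StB u l b c d e).Nodup ∧ ∀ x ∈ StB u l b c d e, x ∈ X ω)) fun e he => by
          obtain ⟨j, b1, H, b2, b3, a, b4, b5⟩ := hP e (mem_filter.1 he).2
          simp only [mem_union, mem_filter, mem_univ, true_and, not_not]
          rcases lt_or_ge m j with k | k
          · obtain ⟨σ, hσ⟩ := b1 m k
            exact .inl ⟨σ, fun x hx => by
              obtain ⟨d, h, rfl⟩ := mem_map.1 hx; exact hσ d (mem_filter.1 h).2⟩
          have h : ∀ c ∈ H.map (.subtype _), c ∈ X e := fun c hc =>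
            map_subset_map.2 (fun d hd => mem_filter.2 ⟨mem_univ _, (b3 d hd).trans_le k⟩) hc
          obtain ⟨u, l, c1, c2⟩ := struct (H := H.map (.subtype _)) (σ := a) (fun c hc => by
            obtain ⟨⟨d, d1, d2⟩, -, rfl⟩ := mem_map.1 hc
            obtain ⟨x, y, -, rfl⟩ := card_eq_two.1 d1
            exact ⟨x, y, fun k => by simp [k] at d2, rfl⟩) (by simpa) (forall_mem_map.2 b4)
            fun τ k i ⟨c, hc, k'⟩ => by
              obtain ⟨d, d1, rfl⟩ := mem_map.1 hc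
              exact b5 τ (forall_mem_map.1 k) i ⟨d, d1, k'⟩
          exact .inr ⟨u, l, c1, c2.imp (fun ⟨x, a, b, c⟩ => ⟨x, a, b, fun y k => h y (c y k)⟩)
            fun ⟨x, a, y, b, z, c, v, d, f, g⟩ => ⟨x, a, y, b, z, c, v, d, f, fun y k => h y (g y k)⟩⟩).trans
          (card_union_le _ _))
    have a4 := congrArg (Nat.cast (R := ℝ)) (card_filter_add_card_filter_not (s := univ)
      fun ω => ¬ ∃ σ : Fin n → Bool, ∀ x ∈ X ω, ∃ z ∈ x, σ z.1 = z.2)
    have a5 : (m : ℝ) / N / (1 - (1 - 1 / (8 * L))) ^ 2 + 24 * ((m : ℝ) / N) ^ 2 /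
        (1 - (1 - 1 / (8 * L))) ^ 5 ≤ 1 / 10 ^ 20 := by
      rw [sub_sub_cancel]
      refine le_trans (b := 1 / (8000 * (L : ℝ) ^ 3) / (1 / (8 * L)) ^ 2 + 24 * (1 / (8000 * L ^ 3)) ^ 2 /
        (1 / (8 * L)) ^ 5) (by gcongr) (le_trans ?_ (one_div_le_one_div_of_le (by norm_num) l0))
      field_simp; norm_num
    rw [Nat.card_eq_fintype_card (α := Fin N ≃ Cl n), div_le_iff₀ w0, Nat.card_eq_fintype_card,
      Fintype.card_subtype]
    rw [Nat.cast_add] at a3 a4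
    rw [card_univ] at a4
    have a6 := mul_le_mul_of_nonneg_left a5 w0.le
    have a7 : ∀ w x : ℝ, 0 < w → (w * (1 / 512000)) ^ 2 ≤ x * (w * 5000 ^ 2) →
        w * (1 / 512000) ^ 2 ≤ x * 5000 ^ 2 := fun w x h k => le_of_mul_le_mul_left (by linarith) h
    have a8 := a7 _ _ w0 a2
    linarith
  · have h1 : 1 / 2 ≤ 8000 * L ^ 3 * ((m - (3 * L + 3 : ℕ)) / N : ℝ) := by rw [n0] at q1; linarith
    have h2 : (1 / 4 : ℝ) ≤ (1 - 1 / (2 * L)) ^ 2 := by
      rw [t1]; nlinarith only [t0, t2]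
    linarith only [mul_le_mul h1 h2 (by norm_num) (by positivity)]
  · have h1 : (3 * L + 2 : ℝ) ≤ n * (1 / (4 * L)) := by
      rw [mul_one_div, le_div_iff₀ (by positivity)]; nlinarith
    rw [Fintype.card_fin, t1, Nat.cast_add, Nat.cast_mul, Nat.cast_ofNat, Nat.cast_ofNat]
    have h2 := mul_le_mul_of_nonneg_right h1 q0
    have h3 := mul_le_mul_of_nonneg_right q1 (show 0 ≤ 1 - 1 / (4 * L : ℝ) by linarith)
    generalize ((m - (3 * L + 3 : ℕ)) / N : ℝ) = q at *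
    generalize 1 / (4 * L : ℝ) = t at *
    nlinarith only [h2, h3, sq_nonneg t]

end Pool.Agent.H.MP_284d10_pr
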